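import Pool.Agent.Lib.MP_269429_pr.Defs

/-!
# The event `EvA` is closed
-/

open Set Filter Topology TopologicalSpace

namespace Pool.Agent.MP269

theorem exists_close {K L : NonemptyCompacts (ℝ × ℝ)} {ε : ℝ} (h : dist K L < ε) {p : ℝ × ℝ}
    (hp : p ∈ (K : Set (ℝ × ℝ))) : ∃ p' ∈ (L : Set (ℝ × ℝ)), |p.1 - p'.1| < ε ∧
      |p.2 - p'.2| < ε := by
  rw [Metric.NonemptyCompacts.dist_eq] at h
  obtain ⟨p', h1, h2⟩ := Metric.exists_dist_lt_of_hausdorffDist_lt hp h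
    (Metric.hausdorffEDist_ne_top_of_nonempty_of_bounded K.nonempty L.nonempty
      K.isCompact.isBounded L.isCompact.isBounded)
  refine ⟨p', h1, ?_, ?_⟩
  · have := lt_of_le_of_lt (le_max_left (dist p.1 p'.1) (dist p.2 p'.2)) h2
    rwa [Real.dist_eq] at this
  · have := lt_of_le_of_lt (le_max_right (dist p.1 p'.1) (dist p.2 p'.2)) h2
    rwa [Real.dist_eq] at this

theorem isClosed_EvA : IsClosed EvA := by
  refine IsSeqClosed.isClosed ?_
  intro u K hu hK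
  choose w hw h1 h2 using hu
  obtain ⟨w₀, hw₀, φ, hφ, hlim⟩ := isCompact_Icc.tendsto_subseq hw
  have key : ∀ ε : ℝ, 0 < ε → ∃ n, dist K (u n) < ε ∧ |w n - w₀| < ε := by
    intro ε hε
    have e1 : ∀ᶠ n in atTop, dist (u (φ n)) K < ε :=
      (hK.comp hφ.tendsto_atTop).eventually (Metric.ball_mem_nhds K hε)
    have e2 : ∀ᶠ n in atTop, dist (w (φ n)) w₀ < ε :=
      hlim.eventually (Metric.ball_mem_nhds w₀ hε)
    obtain ⟨n, h3, h4⟩ := (e1.and e2).exists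
    exact ⟨φ n, by rw [dist_comm]; exact h3, by rwa [Real.dist_eq] at h4⟩
  refine ⟨w₀, hw₀, ?_, ?_⟩
  · intro p hp
    have hb : ∀ ε : ℝ, 0 < ε → (0 ≤ p.1 + ε ∧ p.1 ≤ w₀ + 2 * ε) ∧ 0 ≤ p.2 + ε ∧
        p.2 ≤ 1 + ε := by
      intro ε hε
      obtain ⟨n, h3, h4⟩ := key ε hε
      obtain ⟨p', h5, h6, h7⟩ := exists_close h3 hp
      obtain ⟨⟨a1, a2⟩, a3, a4⟩ := h1 n h5
      rw [abs_lt] at h4 h6 h7
      exact ⟨⟨by linarith, by linarith⟩, by linarith, by linarith⟩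
    refine ⟨⟨?_, ?_⟩, ?_, ?_⟩
    · exact le_of_forall_pos_le_add fun ε hε => (hb ε hε).1.1
    · refine le_of_forall_pos_le_add fun ε hε => ?_
      have := (hb (ε / 2) (by linarith)).1.2
      linarith
    · exact le_of_forall_pos_le_add fun ε hε => (hb ε hε).2.1
    · exact le_of_forall_pos_le_add fun ε hε => (hb ε hε).2.2
  · rw [Set.disjoint_left]
    rintro p hp ⟨⟨a1, a2⟩, a3, a4⟩
    obtain ⟨ε, hε, b1, b2, b3, b4⟩ : ∃ ε : ℝ, 0 < ε ∧ ε < p.1 ∧ 2 * ε < w₀ - p.1 ∧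
        2 * ε < p.2 - (1 - w₀) ∧ ε < 1 - p.2 := by
      refine ⟨min (min (p.1 / 2) ((w₀ - p.1) / 4)) (min ((p.2 - (1 - w₀)) / 4) ((1 - p.2) / 2)),
        ?_, ?_, ?_, ?_, ?_⟩
      · refine lt_min (lt_min (by linarith) (by linarith)) (lt_min (by linarith) (by linarith))
      · have := (min_le_left (min (p.1 / 2) ((w₀ - p.1) / 4))
          (min ((p.2 - (1 - w₀)) / 4) ((1 - p.2) / 2))).trans (min_le_left _ _)
        linarith
      · have := (min_le_left (min (p.1 / 2) ((w₀ - p.1) / 4))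
          (min ((p.2 - (1 - w₀)) / 4) ((1 - p.2) / 2))).trans (min_le_right _ _)
        linarith
      · have := (min_le_right (min (p.1 / 2) ((w₀ - p.1) / 4))
          (min ((p.2 - (1 - w₀)) / 4) ((1 - p.2) / 2))).trans (min_le_left _ _)
        linarith
      · have := (min_le_right (min (p.1 / 2) ((w₀ - p.1) / 4))
          (min ((p.2 - (1 - w₀)) / 4) ((1 - p.2) / 2))).trans (min_le_right _ _)
        linarith
    obtain ⟨n, h3, h4⟩ := key ε hε
    obtain ⟨p', h5, h6, h7⟩ := exists_close h3 hp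
    rw [abs_lt] at h4 h6 h7
    exact Set.disjoint_left.1 (h2 n) h5 ⟨⟨by linarith, by linarith⟩, by linarith, by linarith⟩

end Pool.Agent.MP269
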