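import Pool.Agent.Lib.MP_269429_pr.Run

/-!
# There are at most `27 ^ n` squarings with `n` squares
-/

open Set Filter Topology TopologicalSpace

namespace Pool.Agent.MP269

theorem exists_code (n : ℕ) (K : Sq n) : ∃ v : List.Vector (Fin 3 × Fin 3 × Fin 3) n,
    ∃ (w : ℝ) (ds : List ℝ), okRun ds [(w, 0)] ∧ fin ds [(w, 0)] = [(w, 1)] ∧
      run ds [(w, 0)] = v.1 ∧ (K.1 : Set (ℝ × ℝ)) = skel (sqs ds [(w, 0)]).toFinset := by
  obtain ⟨w, T, hT, hn, hK⟩ := K.2
  obtain ⟨ds, h1, h2, h3, h4⟩ := exists_run hT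
  refine ⟨⟨run ds [(w, 0)], by rw [run_length, h2, hn]⟩, w, ds, h1, h3, rfl, ?_⟩
  rw [hK, h4]

theorem code_injective (n : ℕ) :
    Function.Injective fun K : Sq n => Classical.choose (exists_code n K) := by
  intro K K' h
  obtain ⟨w, ds, h1, h2, h3, h4⟩ := Classical.choose_spec (exists_code n K)
  obtain ⟨w', ds', h1', h2', h3', h4'⟩ := Classical.choose_spec (exists_code n K')
  have hr : run ds [(w, 0)] = run ds' [(w', 0)] := by
    rw [h3, h3']
    exact congrArg Subtype.val h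
  obtain ⟨e1, e2⟩ := run_unique h1 h1' h2 h2' hr
  apply Subtype.ext
  apply SetLike.coe_injective
  rw [h4, h4', e1, e2]

theorem finite_Sq (n : ℕ) : (Sq n).Finite := by
  have : Finite (Sq n) := Finite.of_injective _ (code_injective n)
  exact Set.toFinite _

theorem ncard_Sq_le (n : ℕ) : (Sq n).ncard ≤ 27 ^ n := by
  have h1 : Nat.card (Sq n) ≤ Nat.card (List.Vector (Fin 3 × Fin 3 × Fin 3) n) :=
    Nat.card_le_card_of_injective _ (code_injective n)
  rw [Nat.card_eq_fintype_card (α := List.Vector (Fin 3 × Fin 3 × Fin 3) n), card_vector] at h1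
  simpa using h1

end Pool.Agent.MP269
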