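import Mathlib

/-!
# Definitions for MP_269429_pr: random squarings of rectangles
-/

open Set TopologicalSpace

namespace Pool.Agent.MP269

/-! ## Squares and squarings -/

/-- A square with horizontal and vertical sides is coded by `(x, y, d)`: lower left corner
`(x, y)`, side `d`. -/
abbrev Sqr : Type := ℝ × ℝ × ℝ

/-- the closed square -/
def csq (q : Sqr) : Set (ℝ × ℝ) := Icc q.1 (q.1 + q.2.2) ×ˢ Icc q.2.1 (q.2.1 + q.2.2)

/-- the open square -/
def osq (q : Sqr) : Set (ℝ × ℝ) := Ioo q.1 (q.1 + q.2.2) ×ˢ Ioo q.2.1 (q.2.1 + q.2.2)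

/-- the boundary of the square -/
def bsq (q : Sqr) : Set (ℝ × ℝ) := csq q \ osq q

/-- The squares of the finite set `T` tile the rectangle `[0, w] × [0, 1]`. -/
structure IsTiling (w : ℝ) (T : Finset Sqr) : Prop where
  wpos : 0 < w
  side : ∀ q ∈ T, 0 < q.2.2
  disj : ∀ q ∈ T, ∀ q' ∈ T, q ≠ q' → Disjoint (osq q) (osq q')
  cover : (⋃ q ∈ T, csq q) = Icc 0 w ×ˢ Icc 0 1

/-- the union of the boundaries of the squares of `T` -/
def skel (T : Finset Sqr) : Set (ℝ × ℝ) := ⋃ q ∈ T, bsq q

/-- The normalised squarings (height one, lower left corner at the origin) with exactly `n`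
squares, as points of the space of compact subsets of the plane with the Hausdorff distance. -/
def Sq (n : ℕ) : Set (NonemptyCompacts (ℝ × ℝ)) :=
  {K | ∃ w T, IsTiling w T ∧ T.card = n ∧ (K : Set (ℝ × ℝ)) = skel T}

/-- the bounded connected components of the complement of `K` -/
def comps (K : Set (ℝ × ℝ)) : Set (Set (ℝ × ℝ)) :=
  {U | Bornology.IsBounded U ∧ ∃ x ∈ Kᶜ, U = connectedComponentIn Kᶜ x}

/-- The squarings, literally: closed sets (inside the rectangle) whose bounded complementary
components are open squares, `n` in number, such that the closure of the union of these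
components is a compact rectangle `[0, w] × [0, 1]`. -/
def SqL (n : ℕ) : Set (NonemptyCompacts (ℝ × ℝ)) :=
  {K | ∃ w : ℝ, 0 < w ∧ (K : Set (ℝ × ℝ)) ⊆ Icc 0 w ×ˢ Icc 0 1 ∧
    (∀ U ∈ comps (K : Set (ℝ × ℝ)), ∃ q : Sqr, 0 < q.2.2 ∧ U = osq q) ∧
    closure (⋃₀ comps (K : Set (ℝ × ℝ))) = Icc 0 w ×ˢ Icc 0 1 ∧
    (comps (K : Set (ℝ × ℝ))).encard = n}

/-- the expectation of `F` for the uniform distribution on the finite set `C` -/
noncomputable def avg (C : Set (NonemptyCompacts (ℝ × ℝ)))
    (F : NonemptyCompacts (ℝ × ℝ) → ℝ) : ℝ :=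
  (∑ᶠ K ∈ C, F K) / C.ncard

/-- `K'` arises from `K` by adding a square above `K`, whose side is the width `w` of `K`, and
scaling to height one. -/
def IsTopAdd (K K' : Set (ℝ × ℝ)) : Prop :=
  ∃ w : ℝ, IsGreatest (Prod.fst '' K) w ∧
    K' = (fun p : ℝ × ℝ => (1 / (1 + w) * p.1, 1 / (1 + w) * p.2)) '' K ∪
      bsq (0, 1 / (1 + w), 1 / (1 + w) * w)

/-! ## Rooted maps -/

/-- A connected rooted map, given by the permutations of its darts (oriented edges): `σ d` is the
next dart after `d`, in counterclockwise order, with the same origin, `α d` is the opposite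
dart. The vertices are the orbits of `σ`, the faces are the orbits of `d ↦ σ⁻¹ (α d)` (the orbit of
`d` consists of the darts which have on their left the same face as `d`). All vertices and
faces have finite degree. -/
structure RMap where
  D : Type
  σ : Equiv.Perm D
  α : Equiv.Perm D
  root : D
  inv : ∀ d, α (α d) = d
  nofix : ∀ d, α d ≠ d
  vfin : ∀ d, {e | σ.SameCycle d e}.Finite
  ffin : ∀ d, {e | (σ⁻¹ * α).SameCycle d e}.Finite
  conn : ∀ d e : D, Relation.ReflTransGen (fun a b => b = σ a ∨ b = α a) d e

namespace RMap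

variable (G : RMap)

/-- the face permutation -/
def φ : Equiv.Perm G.D := G.σ⁻¹ * G.α

/-- `G` is 3-connected: a simple graph with at least four vertices, and deleting two vertices
leaves a connected graph. (`τ` is the permutation whose orbits are the vertices, so that the same
definition can be used for `G` and for its dual.) -/
def ThreeConn (τ : Equiv.Perm G.D) : Prop :=
  (∀ e, ¬ τ.SameCycle e (G.α e)) ∧
  (∀ e e', τ.SameCycle e e' → τ.SameCycle (G.α e) (G.α e') → e = e') ∧
  (∃ a b c d : G.D, ¬ τ.SameCycle a b ∧ ¬ τ.SameCycle a c ∧ ¬ τ.SameCycle a d ∧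
    ¬ τ.SameCycle b c ∧ ¬ τ.SameCycle b d ∧ ¬ τ.SameCycle c d) ∧
  ∀ a b x y : G.D, ¬ τ.SameCycle a x → ¬ τ.SameCycle b x → ¬ τ.SameCycle a y →
    ¬ τ.SameCycle b y →
    Relation.ReflTransGen (fun u v => (τ.SameCycle u v ∨ v = G.α u) ∧ ¬ τ.SameCycle a v ∧
      ¬ τ.SameCycle b v) x y

open scoped Classical in
/-- The probability that the simple random walk started at the origin of the dart `d` hits the
vertex of `s` within `n` steps and before the vertex of `t` (the vertices are the orbits of `τ`).
-/
noncomputable def hit (τ : Equiv.Perm G.D) (hτ : ∀ d, {e | τ.SameCycle d e}.Finite)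
    (s t : G.D) : ℕ → G.D → ℝ
  | 0, d => if τ.SameCycle s d then 1 else 0
  | n + 1, d => if τ.SameCycle s d then 1 else if τ.SameCycle t d then 0 else
      (∑ e ∈ (hτ d).toFinset, hit τ hτ s t n (G.α e)) / (hτ d).toFinset.card

/-- The potential of the origin of the dart `d`: the probability that the simple random walk
hits `s` (the origin of the root) before `t` (the end of the root). -/
noncomputable def P (d : G.D) : ℝ := ⨆ n, G.hit G.σ G.vfin G.root (G.α G.root) n d

/-- The same for the dual map: the probability that the simple random walk on the faces, started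
at the face to the left of `d`, hits the face to the right of the root before the face to the
left of the root. -/
noncomputable def Q (d : G.D) : ℝ := ⨆ n, G.hit G.φ G.ffin (G.α G.root) G.root n d

open scoped Classical in
/-- the total current, when the root edge is deleted, the other edges are unit resistors, and
`s`, `t` have potentials `1`, `0` -/
noncomputable def cur : ℝ :=
  ∑ e ∈ (G.vfin G.root).toFinset.erase G.root, (1 - G.P (G.α e))

/-- The square of the edge of the dart `e`: its side is the difference of the potentials, its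
top side is at the larger potential, its left side is at the minimum of the dual potentials
(with value `cur` at the face to the right of the root and `0` at the face to the left). -/
noncomputable def sqr (e : G.D) : Sqr :=
  (min (G.cur * G.Q e) (G.cur * G.Q (G.α e)), min (G.P e) (G.P (G.α e)),
    |G.P e - G.P (G.α e)|)

/-- The squaring of the rooted map: the closure of the union of the boundaries of the squares of
all edges except the root edge. (The closure is only necessary for infinite maps, where it adds
the accumulation points.) -/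
noncomputable def squaring : Set (ℝ × ℝ) :=
  closure (⋃ (e : G.D) (_ : e ≠ G.root ∧ e ≠ G.α G.root), bsq (G.sqr e))

end RMap

/-! ## Auxiliary definitions -/

/-- The event: for some `w ∈ [0, 1]` the compact set is contained in `[0, w] × [0, 1]` and
avoids the open square `(0, w) × (1 - w, 1)`. -/
def EvA : Set (NonemptyCompacts (ℝ × ℝ)) :=
  {K | ∃ w ∈ Icc (0 : ℝ) 1, (K : Set (ℝ × ℝ)) ⊆ Icc 0 w ×ˢ Icc 0 1 ∧
    Disjoint (K : Set (ℝ × ℝ)) (Ioo 0 w ×ˢ Ioo (1 - w) 1)}

/-- comparison with three values -/
noncomputable def c3 (a b : ℝ) : Fin 3 := if a < b then 0 else if a = b then 1 else 2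

/-- add a piece (width, height) to the left of a skyline; merge pieces of the same height -/
noncomputable def mc (p : ℝ × ℝ) : List (ℝ × ℝ) → List (ℝ × ℝ)
  | [] => [p]
  | r :: R => if p.2 = r.2 then (p.1 + r.1, p.2) :: R else p :: r :: R

/-- put a square of side `d` at the left end of the piece `p`, which is followed by `R` -/
noncomputable def fillv (d : ℝ) (p : ℝ × ℝ) (R : List (ℝ × ℝ)) : List (ℝ × ℝ) :=
  if d < p.1 then (d, p.2 + d) :: (p.1 - d, p.2) :: R else mc (d, p.2 + d) R

/-- put a square of side `d` at the left end of the leftmost valley of the skyline -/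
noncomputable def place (d : ℝ) : List (ℝ × ℝ) → List (ℝ × ℝ)
  | [] => []
  | [p] => fillv d p []
  | p :: q :: r => if p.2 < q.2 then fillv d p (q :: r) else mc p (place d (q :: r))

/-- the first piece is the leftmost valley -/
def isV : List (ℝ × ℝ) → Prop
  | [] => True
  | [_] => True
  | p :: q :: _ => p.2 < q.2

open scoped Classical in
/-- the symbol of a step: comparison of the top of the new square with the left neighbour, of the
side with the width of the valley, of the top with the right neighbour -/
noncomputable def sym (d : ℝ) : List (ℝ × ℝ) → Fin 3 × Fin 3 × Fin 3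
  | [] => (1, 1, 1)
  | [p] => (1, c3 d p.1, 1)
  | p :: q :: r => if p.2 < q.2 then (1, c3 d p.1, c3 (p.2 + d) q.2)
      else if isV (q :: r) then (c3 p.2 (q.2 + d), (sym d (q :: r)).2)
      else sym d (q :: r)

/-- the square fits into the leftmost valley -/
def ok (d : ℝ) : List (ℝ × ℝ) → Prop
  | [] => False
  | [p] => d ≤ p.1
  | p :: q :: r => (p.2 < q.2 ∧ d ≤ p.1) ∨ (¬ p.2 < q.2 ∧ ok d (q :: r))

/-- similar skylines: same number of pieces, same comparisons of neighbouring heights -/
def Sim : List (ℝ × ℝ) → List (ℝ × ℝ) → Prop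
  | [], [] => True
  | [_], [_] => True
  | p :: q :: r, p' :: q' :: r' => c3 p.2 q.2 = c3 p'.2 q'.2 ∧ Sim (q :: r) (q' :: r')
  | _, _ => False

/-- mixed area: widths of the first skyline, heights of the second -/
noncomputable def mix : List (ℝ × ℝ) → List (ℝ × ℝ) → ℝ
  | p :: l, p' :: l' => p.1 * p'.2 + mix l l'
  | _, _ => 0

/-- lower left corner of the leftmost valley of a skyline which starts at `x` -/
noncomputable def vpos (x : ℝ) : List (ℝ × ℝ) → ℝ × ℝ
  | [] => (x, 0)
  | [p] => (x, p.2)
  | p :: q :: r => if p.2 < q.2 then (x, p.2) else vpos (x + p.1) (q :: r)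

/-- the symbols of a run -/
noncomputable def run : List ℝ → List (ℝ × ℝ) → List (Fin 3 × Fin 3 × Fin 3)
  | [], _ => []
  | d :: ds, l => sym d l :: run ds (place d l)

/-- the final skyline of a run -/
noncomputable def fin : List ℝ → List (ℝ × ℝ) → List (ℝ × ℝ)
  | [], l => l
  | d :: ds, l => fin ds (place d l)

/-- all squares of the run have positive side and fit -/
def okRun : List ℝ → List (ℝ × ℝ) → Prop
  | [], _ => True
  | d :: ds, l => 0 < d ∧ ok d l ∧ okRun ds (place d l)

/-- the squares of a run -/
noncomputable def sqs : List ℝ → List (ℝ × ℝ) → List Sqr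
  | [], _ => []
  | d :: ds, l => ((vpos 0 l).1, (vpos 0 l).2, d) :: sqs ds (place d l)

/-- a property of the pieces (position, width, height) of a skyline which starts at `x` -/
def AllP (Pr : ℝ → ℝ → ℝ → Prop) : ℝ → List (ℝ × ℝ) → Prop
  | _, [] => True
  | x, p :: l => Pr x p.1 p.2 ∧ AllP Pr (x + p.1) l

/-- The squares of `R` lie above the piece and cover what is above the piece. -/
def Good (R : Finset Sqr) (x a h : ℝ) : Prop :=
  (∀ q ∈ R, Disjoint (osq q) (Icc x (x + a) ×ˢ Iic h)) ∧
    (h < 1 → Icc x (x + a) ×ˢ Icc h 1 ⊆ ⋃ q ∈ R, csq q)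

/-- neighbouring pieces have different heights -/
def Dist : List (ℝ × ℝ) → Prop
  | [] => True
  | [_] => True
  | p :: q :: r => p.2 ≠ q.2 ∧ Dist (q :: r)

/-- sum of the widths -/
noncomputable def wid : List (ℝ × ℝ) → ℝ
  | [] => 0
  | p :: l => p.1 + wid l

end Pool.Agent.MP269
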