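import Pool.Agent.Lib.MP_269429_pr.Sky

/-!
# The next square of a partial tiling
-/

open Set Filter Topology

namespace Pool.Agent.MP269

theorem mem_csq {q : Sqr} {p : ℝ × ℝ} : p ∈ csq q ↔
    (q.1 ≤ p.1 ∧ p.1 ≤ q.1 + q.2.2) ∧ q.2.1 ≤ p.2 ∧ p.2 ≤ q.2.1 + q.2.2 := Iff.rfl

theorem mem_osq {q : Sqr} {p : ℝ × ℝ} : p ∈ osq q ↔
    (q.1 < p.1 ∧ p.1 < q.1 + q.2.2) ∧ q.2.1 < p.2 ∧ p.2 < q.2.1 + q.2.2 := Iff.rfl

theorem isClosed_csq (q : Sqr) : IsClosed (csq q) := isClosed_Icc.prod isClosed_Icc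

theorem isOpen_osq (q : Sqr) : IsOpen (osq q) := isOpen_Ioo.prod isOpen_Ioo

theorem isClosed_union (R : Finset Sqr) : IsClosed (⋃ q ∈ R, csq q) :=
  isClosed_biUnion_finset fun q _ => isClosed_csq q

/-- an open square which is disjoint from another open square is disjoint from its closure -/
theorem disjoint_csq {q q' : Sqr} (hq : 0 < q.2.2) (h : Disjoint (osq q') (osq q)) :
    Disjoint (osq q') (csq q) := by
  have hc : closure (osq q) = csq q := by
    unfold osq csq
    rw [closure_prod_eq, closure_Ioo (by linarith), closure_Ioo (by linarith)]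
  rw [← hc]
  exact h.closure_right (isOpen_osq q')

theorem corner {R : Finset Sqr} {x a h ε H : ℝ} (ha : 0 < a) (hh : h < 1) (hε : 0 < ε)
    (hH : h < H) (hG : Good R x a h)
    (hL : ∀ q ∈ R, Disjoint (osq q) (Icc (x - ε) x ×ˢ Iic H)) :
    ∃ q ∈ R, q.1 = x ∧ q.2.1 = h := by
  have ht : Tendsto (fun η : ℝ => (x + η, h + η)) (𝓝[>] 0) (𝓝 (x, h)) := by
    have hc : Continuous (fun η : ℝ => (x + η, h + η)) := by fun_prop
    have := hc.tendsto 0
    simp only [add_zero] at this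
    exact this.mono_left nhdsWithin_le_nhds
  have h2 : ∀ᶠ η in 𝓝[>] (0 : ℝ), ∀ q ∈ R, (x, h) ∉ csq q → (x + η, h + η) ∉ csq q := by
    rw [Filter.eventually_all_finset]
    intro q _
    by_cases hm : (x, h) ∈ csq q
    · exact Filter.Eventually.of_forall fun η hn => absurd hm hn
    · have := ht.eventually ((isClosed_csq q).isOpen_compl.mem_nhds hm)
      exact this.mono fun η hη _ => hη
  have h3 : ∀ᶠ η in 𝓝[>] (0 : ℝ), η ∈ Ioo (0 : ℝ) (min a (1 - h)) :=
    Ioo_mem_nhdsGT (lt_min ha (by linarith))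
  obtain ⟨η, h4, h5, h6⟩ := (h2.and h3).exists
  have h6a : η < a := lt_of_lt_of_le h6 (min_le_left _ _)
  have h6b : η < 1 - h := lt_of_lt_of_le h6 (min_le_right _ _)
  have hz : (x + η, h + η) ∈ ⋃ q ∈ R, csq q :=
    hG.2 hh ⟨⟨by simp only; linarith, by simp only; linarith⟩,
      by simp only; linarith, by simp only; linarith⟩
  simp only [mem_iUnion] at hz
  obtain ⟨q, hq, hzq⟩ := hz
  have hm : (x, h) ∈ csq q := by
    by_contra hn
    exact h4 q hq hn hzq
  rw [mem_csq] at hzq hm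
  simp only at hzq hm
  obtain ⟨⟨a1, a2⟩, a3, a4⟩ := hzq
  obtain ⟨⟨b1, b2⟩, b3, b4⟩ := hm
  refine ⟨q, hq, ?_, ?_⟩
  · by_contra hne
    have hlt : q.1 < x := lt_of_le_of_ne b1 hne
    have c1 : max q.1 (x - ε) < x := max_lt hlt (by linarith)
    have c2 : h < min (h + η) H := lt_min (by linarith) hH
    have c3 := le_max_left q.1 (x - ε)
    have c4 := le_max_right q.1 (x - ε)
    have c5 := min_le_left (h + η) H
    have c6 := min_le_right (h + η) H
    have m1 : ((max q.1 (x - ε) + x) / 2, (h + min (h + η) H) / 2) ∈ osq q := by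
      rw [mem_osq]
      simp only
      exact ⟨⟨by linarith, by linarith⟩, by linarith, by linarith⟩
    have m2 : ((max q.1 (x - ε) + x) / 2, (h + min (h + η) H) / 2) ∈
        Icc (x - ε) x ×ˢ Iic H :=
      ⟨⟨by simp only; linarith, by simp only; linarith⟩, by
        simp only [mem_Iic]; linarith⟩
    exact Set.disjoint_left.1 (hL q hq) m1 m2
  · by_contra hne
    have hlt : q.2.1 < h := lt_of_le_of_ne b3 hne
    have m1 : (x + η / 2, (q.2.1 + h) / 2) ∈ osq q := by
      rw [mem_osq]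
      simp only
      exact ⟨⟨by linarith, by linarith⟩, by linarith, by linarith⟩
    have m2 : (x + η / 2, (q.2.1 + h) / 2) ∈ Icc x (x + a) ×ˢ Iic h :=
      ⟨⟨by simp only; linarith, by simp only; linarith⟩, by
        simp only [mem_Iic]; linarith⟩
    exact Set.disjoint_left.1 (hG.1 q hq) m1 m2

theorem side_le {q : Sqr} {a b H : ℝ} (hq : 0 < q.2.2) (hb : 0 < b) (hH : q.2.1 < H)
    (ha : 0 < a)
    (hd : Disjoint (osq q) (Icc (q.1 + a) (q.1 + a + b) ×ˢ Iic H)) : q.2.2 ≤ a := by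
  by_contra hlt
  push Not at hlt
  have c1 : 0 < min b (q.2.2 - a) := lt_min hb (by linarith)
  have c2 : 0 < min q.2.2 (H - q.2.1) := lt_min hq (by linarith)
  have c3 := min_le_left b (q.2.2 - a)
  have c4 := min_le_right b (q.2.2 - a)
  have c5 := min_le_left q.2.2 (H - q.2.1)
  have c6 := min_le_right q.2.2 (H - q.2.1)
  have m1 : (q.1 + a + min b (q.2.2 - a) / 2, q.2.1 + min q.2.2 (H - q.2.1) / 2) ∈ osq q := by
    rw [mem_osq]
    simp only
    exact ⟨⟨by linarith, by linarith⟩, by linarith, by linarith⟩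
  have m2 : (q.1 + a + min b (q.2.2 - a) / 2, q.2.1 + min q.2.2 (H - q.2.1) / 2) ∈
      Icc (q.1 + a) (q.1 + a + b) ×ˢ Iic H :=
    ⟨⟨by simp only; linarith, by simp only; linarith⟩, by
      simp only [mem_Iic]; linarith⟩
  exact Set.disjoint_left.1 hd m1 m2

theorem Good.sub {R : Finset Sqr} {x a h x' a' : ℝ} (hG : Good R x a h) (h1 : x ≤ x')
    (h2 : x' + a' ≤ x + a) : Good R x' a' h := by
  have hs : Icc x' (x' + a') ⊆ Icc x (x + a) := Icc_subset_Icc h1 h2
  refine ⟨fun q hq => (hG.1 q hq).mono_right (prod_mono hs le_rfl), fun hlt => ?_⟩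
  exact (prod_mono hs le_rfl).trans (hG.2 hlt)

theorem Good.merge {R : Finset Sqr} {x a b h : ℝ} (hG : Good R x a h)
    (hG' : Good R (x + a) b h) : Good R x (a + b) h := by
  have hs : Icc x (x + (a + b)) ⊆ Icc x (x + a) ∪ Icc (x + a) (x + a + b) := by
    intro y hy
    rcases le_total y (x + a) with h1 | h1
    · exact Or.inl ⟨hy.1, h1⟩
    · exact Or.inr ⟨h1, by have := hy.2; linarith⟩
  constructor
  · intro q hq
    rw [Set.disjoint_left]
    rintro p hp ⟨h1, h2⟩
    rcases hs h1 with h3 | h3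
    · exact Set.disjoint_left.1 (hG.1 q hq) hp ⟨h3, h2⟩
    · exact Set.disjoint_left.1 (hG'.1 q hq) hp ⟨h3, h2⟩
  · rintro hlt p ⟨h1, h2⟩
    rcases hs h1 with h3 | h3
    · exact hG.2 hlt ⟨h3, h2⟩
    · exact hG'.2 hlt ⟨h3, h2⟩

/-- removing a square from a closed cover of a set in which the complement of the square is
dense -/
theorem cover_erase {R : Finset Sqr} {q : Sqr} {S S₀ : Set (ℝ × ℝ)}
    (h : S ⊆ ⋃ q' ∈ R, csq q') (h0 : S ⊆ closure S₀) (h1 : S₀ ⊆ S)
    (h2 : ∀ p ∈ S₀, p ∉ csq q) : S ⊆ ⋃ q' ∈ R.erase q, csq q' := by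
  have h3 : S₀ ⊆ ⋃ q' ∈ R.erase q, csq q' := by
    intro p hp
    have := h (h1 hp)
    simp only [mem_iUnion] at this ⊢
    obtain ⟨q', hq', hp'⟩ := this
    refine ⟨q', Finset.mem_erase.2 ⟨?_, hq'⟩, hp'⟩
    intro e
    rw [e] at hp'
    exact h2 p hp hp'
  exact h0.trans ((isClosed_union _).closure_subset_iff.2 h3)

theorem Good.erase {R : Finset Sqr} {q : Sqr} {x a h : ℝ} (hG : Good R x a h) (ha : 0 < a)
    (hsep : x + a ≤ q.1 ∨ q.1 + q.2.2 ≤ x) : Good (R.erase q) x a h := by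
  refine ⟨fun q' hq' => hG.1 q' (Finset.mem_of_mem_erase hq'), fun hlt => ?_⟩
  refine cover_erase (S₀ := Ioo x (x + a) ×ˢ Icc h 1) (hG.2 hlt) ?_
    (prod_mono Ioo_subset_Icc_self le_rfl) ?_
  · rw [closure_prod_eq, closure_Ioo (by linarith), closure_Icc]
  · rintro p ⟨⟨h1, h2⟩, -⟩ hp
    rw [mem_csq] at hp
    rcases hsep with h3 | h3
    · linarith [hp.1.1]
    · linarith [hp.1.2]

theorem Good.new {R : Finset Sqr} (hs : ∀ q ∈ R, 0 < q.2.2)
    (hd : ∀ q ∈ R, ∀ q' ∈ R, q ≠ q' → Disjoint (osq q) (osq q')) {q : Sqr} (hq : q ∈ R) {a : ℝ}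
    (hG : Good R q.1 a q.2.1) (hda : q.2.2 ≤ a) :
    Good (R.erase q) q.1 q.2.2 (q.2.1 + q.2.2) := by
  have hq0 := hs q hq
  constructor
  · intro q' hq'
    rw [Set.disjoint_left]
    rintro p hp ⟨h1, h2⟩
    rw [mem_Iic] at h2
    have hne : q' ≠ q := (Finset.mem_erase.1 hq').1
    have hq'R := Finset.mem_of_mem_erase hq'
    rcases le_total p.2 q.2.1 with h3 | h3
    · exact Set.disjoint_left.1 (hG.1 q' hq'R) hp ⟨⟨h1.1, by have := h1.2; linarith⟩, h3⟩
    · exact Set.disjoint_left.1 (disjoint_csq hq0 (hd q' hq'R q hq hne)) hp ⟨h1, h3, h2⟩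
  · intro hlt
    have hold : Icc q.1 (q.1 + q.2.2) ×ˢ Icc (q.2.1 + q.2.2) 1 ⊆ ⋃ q ∈ R, csq q := by
      refine Subset.trans ?_ (hG.2 (by linarith))
      exact prod_mono (Icc_subset_Icc le_rfl (by linarith)) (Icc_subset_Icc (by linarith) le_rfl)
    refine cover_erase (S₀ := Icc q.1 (q.1 + q.2.2) ×ˢ Ioc (q.2.1 + q.2.2) 1) hold ?_
      (prod_mono le_rfl Ioc_subset_Icc_self) ?_
    · rw [closure_prod_eq, closure_Icc, closure_Ioc (by linarith)]
    · rintro p ⟨-, h1, -⟩ hp
      rw [mem_csq] at hp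
      linarith [hp.2.2]

def Pos (l : List (ℝ × ℝ)) : Prop := ∀ p ∈ l, 0 < p.1

def HB (l : List (ℝ × ℝ)) : Prop := ∀ p ∈ l, p.2 ≤ 1

theorem mc_all {R : Finset Sqr} {x : ℝ} {p : ℝ × ℝ} {l : List (ℝ × ℝ)}
    (h : AllP (Good R) x (p :: l)) : AllP (Good R) x (mc p l) := by
  cases l with
  | nil => exact h
  | cons r l =>
    simp only [mc]
    split_ifs with he
    · obtain ⟨h1, h2, h3⟩ := h
      refine ⟨?_, ?_⟩
      · rw [← he] at h2
        exact h1.merge h2
      · simp only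
        rw [← add_assoc]
        exact h3
    · exact h

theorem AllP.erase {R : Finset Sqr} {q : Sqr} : ∀ {l : List (ℝ × ℝ)} {x : ℝ},
    AllP (Good R) x l → Pos l → q.1 + q.2.2 ≤ x → AllP (Good (R.erase q)) x l := by
  intro l
  induction l with
  | nil => intro x _ _ _; trivial
  | cons p l ih =>
    intro x h hp hx
    have hp0 : 0 < p.1 := hp p (by simp)
    exact ⟨h.1.erase hp0 (Or.inr hx), ih h.2 (fun r hr => hp r (by simp [hr])) (by linarith)⟩

theorem fill_all {R : Finset Sqr} (hs : ∀ q ∈ R, 0 < q.2.2)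
    (hd : ∀ q ∈ R, ∀ q' ∈ R, q ≠ q' → Disjoint (osq q) (osq q')) {q : Sqr} (hq : q ∈ R)
    {p : ℝ × ℝ} {L : List (ℝ × ℝ)} (h2 : q.2.1 = p.2) (h3 : q.2.2 ≤ p.1)
    (hA : AllP (Good R) q.1 (p :: L)) (hP : Pos (p :: L)) :
    AllP (Good (R.erase q)) q.1 (fillv q.2.2 p L) := by
  have hP' : Pos L := fun r hr => hP r (by simp [hr])
  have hnew : Good (R.erase q) q.1 q.2.2 (p.2 + q.2.2) := by
    rw [← h2]
    refine Good.new hs hd hq (a := p.1) ?_ h3
    rw [h2]
    exact hA.1
  unfold fillv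
  split_ifs with hlt
  · refine ⟨hnew, ?_, ?_⟩
    · simp only
      exact (hA.1.sub (by have := hs q hq; linarith) (by linarith)).erase (by linarith)
        (Or.inr le_rfl)
    · have e : q.1 + (q.2.2, p.2 + q.2.2).1 + (p.1 - q.2.2, p.2).1 = q.1 + p.1 := by
        simp only
        ring
      rw [e]
      exact hA.2.erase hP' (by linarith)
  · have e : q.2.2 = p.1 := le_antisymm h3 (not_lt.1 hlt)
    refine mc_all ⟨hnew, ?_⟩
    simp only
    have := hA.2.erase (q := q) hP' (by linarith)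
    rw [e]
    exact this

theorem mem_mc {p r : ℝ × ℝ} {l : List (ℝ × ℝ)} (h : r ∈ mc p l) :
    r ∈ l ∨ r.2 = p.2 := by
  cases l with
  | nil =>
    simp only [mc, List.mem_singleton] at h
    exact Or.inr (by rw [h])
  | cons u l =>
    simp only [mc] at h
    split_ifs at h
    · rcases List.mem_cons.1 h with h | h
      · exact Or.inr (by rw [h])
      · exact Or.inl (by simp [h])
    · rcases List.mem_cons.1 h with h | h
      · exact Or.inr (by rw [h])
      · exact Or.inl h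

theorem HB_mc {p : ℝ × ℝ} {l : List (ℝ × ℝ)} (hp : p.2 ≤ 1) (hl : HB l) : HB (mc p l) := by
  intro r hr
  rcases mem_mc hr with h | h
  · exact hl r h
  · rw [h]; exact hp

theorem HB_fillv {d : ℝ} {p : ℝ × ℝ} {l : List (ℝ × ℝ)} (hp : p.2 + d ≤ 1) (hd : 0 < d)
    (hl : HB l) : HB (fillv d p l) := by
  unfold fillv
  split_ifs
  · intro r hr
    rcases List.mem_cons.1 hr with rfl | hr
    · exact hp
    · rcases List.mem_cons.1 hr with rfl | hr
      · simp only; linarith
      · exact hl r hr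
  · exact HB_mc hp hl

theorem step {w : ℝ} {R : Finset Sqr} (hs : ∀ q ∈ R, 0 < q.2.2)
    (hd : ∀ q ∈ R, ∀ q' ∈ R, q ≠ q' → Disjoint (osq q) (osq q'))
    (hrect : ∀ q ∈ R, csq q ⊆ Icc 0 w ×ˢ Icc 0 1) :
    ∀ (l : List (ℝ × ℝ)) (x ε H : ℝ), l ≠ [] → Pos l → Dist l → HB l →
      (∀ p, l = [p] → p.2 < 1) → AllP (Good R) x l → 0 < ε → hh l < H →
      (∀ q ∈ R, Disjoint (osq q) (Icc (x - ε) x ×ˢ Iic H)) →
      (∀ q ∈ R, Disjoint (osq q) (Ici (x + wid l) ×ˢ univ)) →
      ∃ q ∈ R, (q.1, q.2.1) = vpos x l ∧ ok q.2.2 l ∧ x ≤ q.1 ∧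
        AllP (Good (R.erase q)) x (place q.2.2 l) ∧ HB (place q.2.2 l) := by
  intro l
  induction l with
  | nil => intro x ε H h; exact absurd rfl h
  | cons p l ih =>
    intro x ε H _ hP hD hB hS hA hε hH hL hR
    have hp0 : 0 < p.1 := hP p (by simp)
    have hp1 : p.2 ≤ 1 := hB p (by simp)
    have htop : ∀ q ∈ R, q.2.1 + q.2.2 ≤ 1 := by
      intro q hq
      have h0 := hs q hq
      have hm : (q.1, q.2.1 + q.2.2) ∈ csq q := by
        rw [mem_csq]
        exact ⟨⟨le_rfl, by simp only; linarith⟩, by simp only; linarith, le_rfl⟩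
      exact (hrect q hq hm).2.2
    cases l with
    | nil =>
      obtain ⟨q, hq, h1, h2⟩ := corner hp0 (hS p rfl) hε hH hA.1 hL
      have h3 : q.2.2 ≤ p.1 := by
        refine side_le (b := 1) (H := q.2.1 + 1) (hs q hq) one_pos (by linarith) hp0 ?_
        refine (hR q hq).mono_right ?_
        rintro z ⟨hz, -⟩
        refine ⟨?_, trivial⟩
        simp only [wid, add_zero, mem_Ici]
        rw [← h1]
        exact hz.1
      refine ⟨q, hq, ?_, h3, h1.ge, ?_, ?_⟩
      · simp only [vpos, h1, h2]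
      · simp only [place]
        rw [← h1] at hA ⊢
        exact fill_all hs hd hq h2 h3 hA hP
      · simp only [place]
        exact HB_fillv (by rw [← h2]; exact htop q hq) (hs q hq) (fun r hr => by simp at hr)
    | cons u r =>
      have hu0 : 0 < u.1 := hP u (by simp)
      have hu1 : u.2 ≤ 1 := hB u (by simp)
      by_cases hlt : p.2 < u.2
      · obtain ⟨q, hq, h1, h2⟩ := corner (h := p.2) hp0 (by linarith) hε hH hA.1 hL
        have h3 : q.2.2 ≤ p.1 := by
          refine side_le (b := u.1) (H := u.2) (hs q hq) hu0 (by rw [h2]; exact hlt) hp0 ?_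
          have := hA.2.1.1 q hq
          rw [h1]
          exact this
        refine ⟨q, hq, ?_, Or.inl ⟨hlt, h3⟩, h1.ge, ?_, ?_⟩
        · simp only [vpos, if_pos hlt, h1, h2]
        · simp only [place, if_pos hlt]
          rw [← h1] at hA ⊢
          exact fill_all hs hd hq h2 h3 hA hP
        · simp only [place, if_pos hlt]
          exact HB_fillv (by rw [← h2]; exact htop q hq) (hs q hq)
            (fun r hr => hB r (List.mem_cons_of_mem _ hr))
      · have hgt : u.2 < p.2 := lt_of_le_of_ne (not_lt.1 hlt) (Ne.symm hD.1)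
        obtain ⟨q, hq, h1, h2, h3, h4, h5⟩ := ih (x + p.1) p.1 p.2 (by simp)
          (fun r hr => hP r (List.mem_cons_of_mem _ hr)) hD.2
          (fun r hr => hB r (List.mem_cons_of_mem _ hr))
          (fun p' hp' => by
            have : p' = u := by simp at hp'; exact hp'.1.symm
            rw [this]; linarith)
          hA.2 hp0 hgt
          (fun q hq => by
            have := hA.1.1 q hq
            rw [add_sub_cancel_right]
            exact this)
          (fun q hq => by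
            have := hR q hq
            simp only [wid] at this ⊢
            rw [add_assoc]
            exact this)
        refine ⟨q, hq, ?_, Or.inr ⟨hlt, h2⟩, by linarith, ?_, ?_⟩
        · simp only [vpos, if_neg hlt]
          rw [h1]
        · simp only [place, if_neg hlt]
          exact mc_all ⟨hA.1.erase hp0 (Or.inl h3), h4⟩
        · simp only [place, if_neg hlt]
          exact HB_mc hp1 h5

end Pool.Agent.MP269
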