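import Pool.Agent.Lib.MP_269429_pr.Top

/-!
# The literal definition of squarings agrees with the definition by tilings
-/

open Set Filter Topology TopologicalSpace

namespace Pool.Agent.MP269

theorem center_mem {q : Sqr} (hq : 0 < q.2.2) :
    (q.1 + q.2.2 / 2, q.2.1 + q.2.2 / 2) ∈ osq q := by
  rw [mem_osq]
  simp only
  exact ⟨⟨by linarith, by linarith⟩, by linarith, by linarith⟩

theorem osq_preconnected (q : Sqr) : IsPreconnected (osq q) :=
  ((convex_Ioo _ _).prod (convex_Ioo _ _)).isPreconnected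

theorem IsTiling.osq_subset_compl {w : ℝ} {T : Finset Sqr} (hT : IsTiling w T) {q : Sqr}
    (hq : q ∈ T) : osq q ⊆ (skel T)ᶜ := by
  intro p hp hK
  unfold skel at hK
  simp only [mem_iUnion] at hK
  obtain ⟨q', hq', hb⟩ := hK
  by_cases he : q = q'
  · rw [← he] at hb
    exact hb.2 hp
  · exact Set.disjoint_left.1 (disjoint_csq (hT.side q' hq') (hT.disj q hq q' hq' he)) hp hb.1

theorem IsTiling.component {w : ℝ} {T : Finset Sqr} (hT : IsTiling w T) {q : Sqr}
    (hq : q ∈ T) {x : ℝ × ℝ} (hx : x ∈ osq q) :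
    connectedComponentIn (skel T)ᶜ x = osq q := by
  apply Subset.antisymm
  · have h1 : IsPreconnected (connectedComponentIn (skel T)ᶜ x) :=
      isPreconnected_connectedComponentIn
    have hxc : x ∈ (skel T)ᶜ := hT.osq_subset_compl hq hx
    refine h1.subset_left_of_subset_union (isOpen_osq q) (isClosed_csq q).isOpen_compl ?_ ?_
      ⟨x, mem_connectedComponentIn hxc, hx⟩
    · rw [Set.disjoint_left]
      intro p hp hp'
      refine hp' ?_
      rw [mem_osq] at hp
      rw [mem_csq]
      exact ⟨⟨hp.1.1.le, hp.1.2.le⟩, hp.2.1.le, hp.2.2.le⟩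
    · intro p hp
      by_contra hn
      rw [mem_union, not_or] at hn
      have hc : p ∈ csq q := not_not.1 hn.2
      have hpc := connectedComponentIn_subset _ _ hp
      apply hpc
      unfold skel
      simp only [mem_iUnion]
      exact ⟨q, hq, hc, hn.1⟩
  · exact (osq_preconnected q).subset_connectedComponentIn hx (hT.osq_subset_compl hq)

theorem unbounded_component {K : Set (ℝ × ℝ)} {w : ℝ} (hK : K ⊆ Icc 0 w ×ˢ Icc 0 1)
    {x : ℝ × ℝ} (hx : x ∉ Icc 0 w ×ˢ Icc (0 : ℝ) 1) :
    ¬ Bornology.IsBounded (connectedComponentIn Kᶜ x) := by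
  intro hb
  obtain ⟨r, hr⟩ := hb.subset_closedBall x
  have key : ∀ (L : Set (ℝ × ℝ)) (p : ℝ × ℝ), Convex ℝ L → x ∈ L → p ∈ L → L ⊆ Kᶜ →
      dist p x ≤ r := by
    intro L p h1 h2 h3 h4
    have h5 := h1.isPreconnected.subset_connectedComponentIn h2 h4
    exact hr (h5 h3)
  have hcases : x.1 < 0 ∨ w < x.1 ∨ x.2 < 0 ∨ 1 < x.2 := by
    by_contra hn
    push Not at hn
    exact hx ⟨⟨hn.1, hn.2.1⟩, hn.2.2.1, hn.2.2.2⟩
  rcases hcases with h | h | h | h
  · have h1 := key (Iic x.1 ×ˢ {x.2}) (x.1 - (|r| + 1), x.2)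
      ((convex_Iic _).prod (convex_singleton _)) ⟨mem_Iic.2 le_rfl, rfl⟩
      ⟨by simp only [mem_Iic]; linarith [abs_nonneg r], rfl⟩
      (fun p hp hpK => by
        have h2 := (hK hpK).1.1
        have h3 : p.1 ≤ x.1 := hp.1
        linarith)
    have h2 := le_trans (le_max_left _ _) h1
    simp only [Real.dist_eq] at h2
    have h3 := neg_le_abs (x.1 - (|r| + 1) - x.1)
    linarith [le_abs_self r]
  · have h1 := key (Ici x.1 ×ˢ {x.2}) (x.1 + (|r| + 1), x.2)
      ((convex_Ici _).prod (convex_singleton _)) ⟨mem_Ici.2 le_rfl, rfl⟩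
      ⟨by simp only [mem_Ici]; linarith [abs_nonneg r], rfl⟩
      (fun p hp hpK => by
        have h2 := (hK hpK).1.2
        have h3 : x.1 ≤ p.1 := hp.1
        linarith)
    have h2 := le_trans (le_max_left _ _) h1
    simp only [Real.dist_eq] at h2
    have h3 := le_abs_self (x.1 + (|r| + 1) - x.1)
    linarith [le_abs_self r]
  · have h1 := key ({x.1} ×ˢ Iic x.2) (x.1, x.2 - (|r| + 1))
      ((convex_singleton _).prod (convex_Iic _)) ⟨rfl, mem_Iic.2 le_rfl⟩
      ⟨rfl, by simp only [mem_Iic]; linarith [abs_nonneg r]⟩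
      (fun p hp hpK => by
        have h2 := (hK hpK).2.1
        have h3 : p.2 ≤ x.2 := hp.2
        linarith)
    have h2 := le_trans (le_max_right _ _) h1
    simp only [Real.dist_eq] at h2
    have h3 := neg_le_abs (x.2 - (|r| + 1) - x.2)
    linarith [le_abs_self r]
  · have h1 := key ({x.1} ×ˢ Ici x.2) (x.1, x.2 + (|r| + 1))
      ((convex_singleton _).prod (convex_Ici _)) ⟨rfl, mem_Ici.2 le_rfl⟩
      ⟨rfl, by simp only [mem_Ici]; linarith [abs_nonneg r]⟩
      (fun p hp hpK => by
        have h2 := (hK hpK).2.2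
        have h3 : x.2 ≤ p.2 := hp.2
        linarith)
    have h2 := le_trans (le_max_right _ _) h1
    simp only [Real.dist_eq] at h2
    have h3 := le_abs_self (x.2 + (|r| + 1) - x.2)
    linarith [le_abs_self r]

theorem IsTiling.comps_eq {w : ℝ} {T : Finset Sqr} (hT : IsTiling w T) :
    comps (skel T) = osq '' (T : Set Sqr) := by
  ext U
  constructor
  · rintro ⟨hb, x, hx, rfl⟩
    by_cases hR : x ∈ Icc 0 w ×ˢ Icc (0 : ℝ) 1
    · have h1 : x ∈ ⋃ q ∈ T, csq q := by rw [hT.cover]; exact hR
      simp only [mem_iUnion] at h1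
      obtain ⟨q, hq, hc⟩ := h1
      have ho : x ∈ osq q := by
        by_contra hn
        apply hx
        unfold skel
        simp only [mem_iUnion]
        exact ⟨q, hq, hc, hn⟩
      exact ⟨q, hq, (hT.component hq ho).symm⟩
    · exact absurd hb (unbounded_component hT.skel_subset hR)
  · rintro ⟨q, hq, rfl⟩
    have hq' : q ∈ T := hq
    have hc := center_mem (hT.side q hq')
    refine ⟨?_, _, hT.osq_subset_compl hq' hc, (hT.component hq' hc).symm⟩
    exact (Metric.isBounded_Ioo _ _).prod (Metric.isBounded_Ioo _ _)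

theorem IsTiling.osq_injOn {w : ℝ} {T : Finset Sqr} (hT : IsTiling w T) :
    Set.InjOn osq (T : Set Sqr) := by
  intro q hq q' hq' h
  by_contra hne
  have hd := hT.disj q hq q' hq' hne
  have hc := center_mem (hT.side q hq)
  exact Set.disjoint_left.1 hd hc (h ▸ hc)

theorem closure_osq {q : Sqr} (hq : 0 < q.2.2) : closure (osq q) = csq q := by
  unfold osq csq
  rw [closure_prod_eq, closure_Ioo (by linarith), closure_Ioo (by linarith)]

theorem SqL_eq (n : ℕ) : SqL n = Sq n := by
  ext K
  constructor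
  · rintro ⟨w, hw, hK, hU, hcl, hcard⟩
    have hfin : (comps (K : Set (ℝ × ℝ))).Finite := by
      refine Set.finite_of_encard_eq_coe hcard
    choose! f hf using hU
    have hinj : Set.InjOn f (comps (K : Set (ℝ × ℝ))) := by
      intro U hU U' hU' h
      rw [(hf U hU).2, (hf U' hU').2, h]
    have hopen : IsOpen (K : Set (ℝ × ℝ))ᶜ := K.isCompact.isClosed.isOpen_compl
    have hT : IsTiling w (hfin.toFinset.image f) := by
      refine ⟨hw, ?_, ?_, ?_⟩
      · intro q hq
        obtain ⟨U, hU, rfl⟩ := Finset.mem_image.1 hq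
        exact (hf U (hfin.mem_toFinset.1 hU)).1
      · intro q hq q' hq' hne
        obtain ⟨U, hU, rfl⟩ := Finset.mem_image.1 hq
        obtain ⟨U', hU', rfl⟩ := Finset.mem_image.1 hq'
        have hU := hfin.mem_toFinset.1 hU
        have hU' := hfin.mem_toFinset.1 hU'
        rw [← (hf U hU).2, ← (hf U' hU').2]
        have hne' : U ≠ U' := fun e => hne (by rw [e])
        obtain ⟨-, x, hx, rfl⟩ := hU
        obtain ⟨-, x', hx', rfl⟩ := hU'
        rw [Set.disjoint_left]
        intro p hp hp'
        apply hne'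
        rw [connectedComponentIn_eq hp, connectedComponentIn_eq hp']
      · have h1 : (⋃ q ∈ hfin.toFinset.image f, csq q) =
            closure (⋃₀ comps (K : Set (ℝ × ℝ))) := by
          rw [sUnion_eq_biUnion, hfin.closure_biUnion]
          ext p
          simp only [mem_iUnion, Finset.mem_image, Set.Finite.mem_toFinset]
          constructor
          · rintro ⟨q, ⟨U, hU, rfl⟩, hp⟩
            refine ⟨U, hU, ?_⟩
            rw [(hf U hU).2, closure_osq (hf U hU).1]
            exact hp
          · rintro ⟨U, hU, hp⟩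
            refine ⟨f U, ⟨U, hU, rfl⟩, ?_⟩
            rw [(hf U hU).2, closure_osq (hf U hU).1] at hp
            exact hp
        rw [h1, hcl]
    refine ⟨w, hfin.toFinset.image f, hT, ?_, ?_⟩
    · rw [Finset.card_image_of_injOn (by simpa using hinj)]
      have := hfin.encard_eq_coe_toFinset_card
      rw [hcard] at this
      exact_mod_cast this.symm
    · ext p
      unfold skel
      simp only [mem_iUnion]
      constructor
      · intro hp
        have h1 : p ∈ ⋃ q ∈ hfin.toFinset.image f, csq q := by rw [hT.cover]; exact hK hp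
        simp only [mem_iUnion] at h1
        obtain ⟨q, hq, hc⟩ := h1
        refine ⟨q, hq, hc, fun ho => ?_⟩
        obtain ⟨U, hU, rfl⟩ := Finset.mem_image.1 hq
        have hU := hfin.mem_toFinset.1 hU
        rw [← (hf U hU).2] at ho
        obtain ⟨-, x, hx, rfl⟩ := hU
        exact connectedComponentIn_subset _ _ ho hp
      · rintro ⟨q, hq, hc, ho⟩
        by_contra hn
        obtain ⟨U, hU, rfl⟩ := Finset.mem_image.1 hq
        have hU := hfin.mem_toFinset.1 hU
        have hfU := hf U hU
        have hop : IsOpen (connectedComponentIn (K : Set (ℝ × ℝ))ᶜ p) :=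
          hopen.connectedComponentIn
        have hpc : p ∈ closure (osq (f U)) := by rw [closure_osq hfU.1]; exact hc
        obtain ⟨y, hy1, hy2⟩ := mem_closure_iff.1 hpc _ hop (mem_connectedComponentIn hn)
        rw [← hfU.2] at hy2
        apply ho
        rw [← hfU.2]
        obtain ⟨-, x, hx, hUx⟩ := hU
        rw [hUx] at hy2 ⊢
        rw [connectedComponentIn_eq hy2, ← connectedComponentIn_eq hy1]
        exact mem_connectedComponentIn hn
  · rintro ⟨w, T, hT, hn, hK⟩
    refine ⟨w, hT.wpos, by rw [hK]; exact hT.skel_subset, ?_, ?_, ?_⟩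
    · rw [hK, hT.comps_eq]
      rintro U ⟨q, hq, rfl⟩
      exact ⟨q, hT.side q hq, rfl⟩
    · rw [hK, hT.comps_eq, sUnion_image, T.finite_toSet.closure_biUnion, ← hT.cover]
      exact iUnion₂_congr fun q hq => closure_osq (hT.side q hq)
    · rw [hK, hT.comps_eq, hT.osq_injOn.encard_image, Set.encard_coe_eq_coe_finsetCard, hn]

end Pool.Agent.MP269
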