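import Pool.Agent.Lib.MP_269429_pr.Geo

/-!
# The squaring of a 3-connected map does not belong to `EvA`
-/

open Set Filter Topology TopologicalSpace

namespace Pool.Agent.MP269

namespace RMap

variable (G : RMap) (τ : Equiv.Perm G.D) (hτ : ∀ d, {e | τ.SameCycle d e}.Finite)

theorem mem_orbit (d e : G.D) : e ∈ (hτ d).toFinset ↔ τ.SameCycle d e := by
  rw [Set.Finite.mem_toFinset]
  rfl

theorem card_orbit_pos (d : G.D) : 0 < ((hτ d).toFinset.card : ℝ) := by
  have : 0 < (hτ d).toFinset.card :=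
    Finset.card_pos.2 ⟨d, (mem_orbit G τ hτ d d).2 (Equiv.Perm.SameCycle.refl τ d)⟩
  exact_mod_cast this

theorem hit_s {s t d : G.D} (h : τ.SameCycle s d) (n : ℕ) : G.hit τ hτ s t n d = 1 := by
  cases n with
  | zero => unfold hit; rw [if_pos h]
  | succ n => unfold hit; rw [if_pos h]

theorem hit_t {s t d : G.D} (h : ¬ τ.SameCycle s d) (h' : τ.SameCycle t d) (n : ℕ) :
    G.hit τ hτ s t n d = 0 := by
  cases n with
  | zero => unfold hit; rw [if_neg h]
  | succ n => unfold hit; rw [if_neg h, if_pos h']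

theorem hit_succ {s t d : G.D} (h : ¬ τ.SameCycle s d) (h' : ¬ τ.SameCycle t d) (n : ℕ) :
    G.hit τ hτ s t (n + 1) d =
      (∑ e ∈ (hτ d).toFinset, G.hit τ hτ s t n (G.α e)) / (hτ d).toFinset.card := by
  rw [hit, if_neg h, if_neg h']

theorem hit_nonneg (s t : G.D) : ∀ (n : ℕ) (d : G.D), 0 ≤ G.hit τ hτ s t n d := by
  intro n
  induction n with
  | zero => intro d; unfold hit; split_ifs <;> norm_num
  | succ n ih =>
    intro d
    unfold hit
    split_ifs
    · norm_num
    · norm_num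
    · exact div_nonneg (Finset.sum_nonneg fun e _ => ih _) (card_orbit_pos G τ hτ d).le

theorem hit_add_le {s t : G.D} (hst : ¬ τ.SameCycle s t) : ∀ (n m : ℕ) (d : G.D),
    G.hit τ hτ s t n d + G.hit τ hτ t s m d ≤ 1 := by
  have hne : ∀ d, τ.SameCycle s d → ¬ τ.SameCycle t d := fun d h1 h2 => hst (h1.trans h2.symm)
  intro n
  induction n with
  | zero =>
    intro m
    induction m with
    | zero =>
      intro d
      unfold hit
      by_cases h1 : τ.SameCycle s d
      · rw [if_pos h1, if_neg (hne d h1)]; norm_num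
      · rw [if_neg h1]; split_ifs <;> norm_num
    | succ m ih =>
      intro d
      by_cases h1 : τ.SameCycle s d
      · rw [hit_s G τ hτ h1, hit_t G τ hτ (hne d h1) h1]; norm_num
      · by_cases h2 : τ.SameCycle t d
        · rw [hit_t G τ hτ h1 h2, hit_s G τ hτ h2]; norm_num
        · rw [hit_succ G τ hτ h2 h1]
          have h3 : G.hit τ hτ s t 0 d = 0 := by unfold hit; rw [if_neg h1]
          rw [h3, zero_add, div_le_one (card_orbit_pos G τ hτ d)]
          calc ∑ e ∈ (hτ d).toFinset, G.hit τ hτ t s m (G.α e)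
              ≤ ∑ e ∈ (hτ d).toFinset, (1 : ℝ) := Finset.sum_le_sum fun e _ => by
                have := ih (G.α e)
                have h4 := hit_nonneg G τ hτ s t 0 (G.α e)
                linarith
            _ = (hτ d).toFinset.card := by simp
  | succ n ihn =>
    intro m
    cases m with
    | zero =>
      intro d
      by_cases h1 : τ.SameCycle s d
      · rw [hit_s G τ hτ h1]
        have h3 : G.hit τ hτ t s 0 d = 0 := by unfold hit; rw [if_neg (hne d h1)]
        rw [h3]; norm_num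
      · by_cases h2 : τ.SameCycle t d
        · rw [hit_t G τ hτ h1 h2, hit_s G τ hτ h2]; norm_num
        · rw [hit_succ G τ hτ h1 h2]
          have h3 : G.hit τ hτ t s 0 d = 0 := by unfold hit; rw [if_neg h2]
          rw [h3, add_zero, div_le_one (card_orbit_pos G τ hτ d)]
          calc ∑ e ∈ (hτ d).toFinset, G.hit τ hτ s t n (G.α e)
              ≤ ∑ e ∈ (hτ d).toFinset, (1 : ℝ) := Finset.sum_le_sum fun e _ => by
                have := ihn 0 (G.α e)
                have h4 := hit_nonneg G τ hτ t s 0 (G.α e)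
                linarith
            _ = (hτ d).toFinset.card := by simp
    | succ m =>
      intro d
      by_cases h1 : τ.SameCycle s d
      · rw [hit_s G τ hτ h1, hit_t G τ hτ (hne d h1) h1]; norm_num
      · by_cases h2 : τ.SameCycle t d
        · rw [hit_t G τ hτ h1 h2, hit_s G τ hτ h2]; norm_num
        · rw [hit_succ G τ hτ h1 h2, hit_succ G τ hτ h2 h1, ← add_div,
            div_le_one (card_orbit_pos G τ hτ d), ← Finset.sum_add_distrib]
          calc ∑ e ∈ (hτ d).toFinset, (G.hit τ hτ s t n (G.α e) + G.hit τ hτ t s m (G.α e))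
              ≤ ∑ e ∈ (hτ d).toFinset, (1 : ℝ) := Finset.sum_le_sum fun e _ => ihn m (G.α e)
            _ = (hτ d).toFinset.card := by simp

theorem hit_le_one {s t : G.D} (hst : ¬ τ.SameCycle s t) (n : ℕ) (d : G.D) :
    G.hit τ hτ s t n d ≤ 1 := by
  have h1 := hit_add_le G τ hτ hst n 0 d
  have h2 := hit_nonneg G τ hτ t s 0 d
  linarith

theorem hit_congr {s t d d' : G.D} (h : τ.SameCycle d d') (n : ℕ) :
    G.hit τ hτ s t n d = G.hit τ hτ s t n d' := by
  have e1 : τ.SameCycle s d ↔ τ.SameCycle s d' :=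
    ⟨fun h' => h'.trans h, fun h' => h'.trans h.symm⟩
  have e2 : τ.SameCycle t d ↔ τ.SameCycle t d' :=
    ⟨fun h' => h'.trans h, fun h' => h'.trans h.symm⟩
  cases n with
  | zero =>
    by_cases h1 : τ.SameCycle s d
    · rw [hit_s G τ hτ h1, hit_s G τ hτ (e1.1 h1)]
    · have h2 : ¬ τ.SameCycle s d' := fun h' => h1 (e1.2 h')
      unfold hit
      rw [if_neg h1, if_neg h2]
  | succ n =>
    by_cases h1 : τ.SameCycle s d
    · rw [hit_s G τ hτ h1, hit_s G τ hτ (e1.1 h1)]
    · by_cases h2 : τ.SameCycle t d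
      · rw [hit_t G τ hτ h1 h2, hit_t G τ hτ (fun h' => h1 (e1.2 h')) (e2.1 h2)]
      · rw [hit_succ G τ hτ h1 h2,
          hit_succ G τ hτ (fun h' => h1 (e1.2 h')) (fun h' => h2 (e2.2 h'))]
        have : (hτ d).toFinset = (hτ d').toFinset := by
          ext e
          rw [mem_orbit, mem_orbit]
          exact ⟨fun h' => h.symm.trans h', fun h' => h.trans h'⟩
        rw [this]

/-- a positive probability to step to the other end of a dart -/
theorem hit_step_pos {s t d e : G.D} (h1 : ¬ τ.SameCycle s d) (h2 : ¬ τ.SameCycle t d)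
    (he : τ.SameCycle d e) {n : ℕ} (h : 0 < G.hit τ hτ s t n (G.α e)) :
    0 < G.hit τ hτ s t (n + 1) d := by
  rw [hit_succ G τ hτ h1 h2]
  refine div_pos ?_ (card_orbit_pos G τ hτ d)
  refine Finset.sum_pos' (fun e _ => hit_nonneg G τ hτ s t n _) ⟨e, ?_, h⟩
  exact (mem_orbit G τ hτ d e).2 he

theorem exists_hit_pos {s t b x y : G.D}
    (hp : Relation.ReflTransGen (fun u v => (τ.SameCycle u v ∨ v = G.α u) ∧
      ¬ τ.SameCycle s v ∧ ¬ τ.SameCycle b v) x y) (hx : ¬ τ.SameCycle s x)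
    (hy : τ.SameCycle t y) : ∃ m, 0 < G.hit τ hτ t s m x := by
  induction hp using Relation.ReflTransGen.head_induction_on with
  | refl => exact ⟨0, by rw [hit_s G τ hτ hy]; norm_num⟩
  | head huv hvy ih =>
    rename_i u v
    obtain ⟨m, hm⟩ := ih huv.2.1
    rcases huv.1 with h | h
    · exact ⟨m, by rw [hit_congr G τ hτ h]; exact hm⟩
    · by_cases h2 : τ.SameCycle t u
      · exact ⟨0, by rw [hit_s G τ hτ h2]; norm_num⟩
      · refine ⟨m + 1, hit_step_pos G τ hτ h2 hx (Equiv.Perm.SameCycle.refl τ u) ?_⟩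
        rw [← h]
        exact hm

theorem bddAbove_hit {s t : G.D} (hst : ¬ τ.SameCycle s t) (d : G.D) :
    BddAbove (Set.range fun n => G.hit τ hτ s t n d) := by
  refine ⟨1, ?_⟩
  rintro x ⟨n, rfl⟩
  exact hit_le_one G τ hτ hst n d

/-- the second dart at `s` -/
def e1 : G.D := G.σ⁻¹ G.root

theorem φ_apply (d : G.D) : G.φ d = G.σ⁻¹ (G.α d) := rfl

theorem same_e1 : G.σ.SameCycle G.root G.e1 := by
  refine ⟨-1, ?_⟩
  rw [zpow_neg_one]
  rfl

theorem same_face_e1 : G.φ.SameCycle (G.α G.root) G.e1 := by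
  refine ⟨1, ?_⟩
  rw [zpow_one, φ_apply, G.inv]
  rfl

variable {G}

theorem root_ne (h1 : G.ThreeConn G.σ) : ¬ G.σ.SameCycle G.root (G.α G.root) := h1.1 _

theorem alpha_e1_ne (h1 : G.ThreeConn G.σ) : ¬ G.σ.SameCycle G.root (G.α G.e1) := by
  intro h
  exact h1.1 G.e1 (G.same_e1.symm.trans h)

theorem e1_ne_root (h2 : G.ThreeConn G.φ) : G.e1 ≠ G.root := by
  intro h
  have := G.same_face_e1
  rw [h] at this
  exact h2.1 _ this.symm

theorem e1_ne_alpha (h1 : G.ThreeConn G.σ) : G.e1 ≠ G.α G.root := by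
  intro h
  have := G.same_e1
  rw [h] at this
  exact h1.1 _ this

theorem P_lt_one (h1 : G.ThreeConn G.σ) {d : G.D} (hd : ¬ G.σ.SameCycle G.root d) :
    G.P d < 1 := by
  have hp := h1.2.2.2 G.root G.root d (G.α G.root) hd hd (root_ne h1) (root_ne h1)
  obtain ⟨m, hm⟩ := exists_hit_pos G G.σ G.vfin (t := G.α G.root) hp hd
    (Equiv.Perm.SameCycle.refl _ _)
  have : G.P d ≤ 1 - G.hit G.σ G.vfin (G.α G.root) G.root m d := by
    unfold P
    refine ciSup_le fun n => ?_
    have := hit_add_le G G.σ G.vfin (root_ne h1) n m d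
    linarith
  linarith

theorem P_le_one (h1 : G.ThreeConn G.σ) (d : G.D) : G.P d ≤ 1 :=
  ciSup_le fun n => hit_le_one G G.σ G.vfin (root_ne h1) n d

theorem P_root {d : G.D} (hd : G.σ.SameCycle G.root d) : G.P d = 1 := by
  unfold P
  have : (fun n => G.hit G.σ G.vfin G.root (G.α G.root) n d) = fun _ => 1 := by
    funext n
    exact hit_s G G.σ G.vfin hd n
  rw [this]
  exact ciSup_const

theorem P_nonneg (h1 : G.ThreeConn G.σ) (d : G.D) : 0 ≤ G.P d :=
  (hit_nonneg G G.σ G.vfin _ _ 0 d).trans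
    (le_ciSup (bddAbove_hit G G.σ G.vfin (root_ne h1) d) 0)

theorem cur_pos (h1 : G.ThreeConn G.σ) (h2 : G.ThreeConn G.φ) : 0 < G.cur := by
  classical
  unfold cur
  refine Finset.sum_pos' (fun e _ => by have := P_le_one h1 (G.α e); linarith) ⟨G.e1, ?_, ?_⟩
  · rw [Finset.mem_erase]
    refine ⟨e1_ne_root h2, ?_⟩
    exact (mem_orbit G G.σ G.vfin _ _).2 G.same_e1
  · have := P_lt_one h1 (alpha_e1_ne h1)
    linarith

theorem Q_pos_of_hit (h2 : G.ThreeConn G.φ) {d : G.D} {n : ℕ}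
    (h : 0 < G.hit G.φ G.ffin (G.α G.root) G.root n d) : 0 < G.Q d := by
  have hst : ¬ G.φ.SameCycle (G.α G.root) G.root := fun h => h2.1 G.root h.symm
  exact lt_of_lt_of_le h (le_ciSup (bddAbove_hit G G.φ G.ffin hst d) n)

theorem Q_e1_pos (h2 : G.ThreeConn G.φ) : 0 < G.Q G.e1 := by
  refine Q_pos_of_hit h2 (n := 0) ?_
  rw [hit_s G G.φ G.ffin G.same_face_e1]
  norm_num

theorem Q_alpha_e1_pos (h1 : G.ThreeConn G.σ) (h2 : G.ThreeConn G.φ) :
    0 < G.Q (G.α G.e1) := by
  have ht : ¬ G.φ.SameCycle G.root (G.α G.e1) := by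
    intro h
    have := h2.2.1 (G.α G.root) G.e1 G.same_face_e1 (by rw [G.inv]; exact h)
    exact e1_ne_alpha h1 this.symm
  by_cases hs : G.φ.SameCycle (G.α G.root) (G.α G.e1)
  · refine Q_pos_of_hit h2 (n := 0) ?_
    rw [hit_s G G.φ G.ffin hs]
    norm_num
  · refine Q_pos_of_hit h2 (n := 1) ?_
    refine hit_step_pos G G.φ G.ffin hs ht (Equiv.Perm.SameCycle.refl _ _) (n := 0) ?_
    rw [G.inv, hit_s G G.φ G.ffin G.same_face_e1]
    norm_num

theorem notMem_EvA (h1 : G.ThreeConn G.σ) (h2 : G.ThreeConn G.φ)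
    {K : NonemptyCompacts (ℝ × ℝ)} (hK : (K : Set (ℝ × ℝ)) = G.squaring) : K ∉ EvA := by
  rintro ⟨w, -, h3, h4⟩
  have hsub : bsq (G.sqr G.e1) ⊆ (K : Set (ℝ × ℝ)) := by
    rw [hK]
    unfold squaring
    refine Subset.trans ?_ subset_closure
    exact subset_iUnion₂_of_subset G.e1 ⟨e1_ne_root h2, e1_ne_alpha h1⟩ le_rfl
  have hp : G.P (G.α G.e1) < 1 := P_lt_one h1 (alpha_e1_ne h1)
  have hp0 := P_nonneg h1 (G.α G.e1)
  have hp1 : G.P G.e1 = 1 := P_root G.same_e1
  obtain ⟨x, hx, hq⟩ : ∃ x : ℝ, 0 < x ∧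
      G.sqr G.e1 = (x, G.P (G.α G.e1), 1 - G.P (G.α G.e1)) := by
    refine ⟨min (G.cur * G.Q G.e1) (G.cur * G.Q (G.α G.e1)), ?_, ?_⟩
    · exact lt_min (mul_pos (cur_pos h1 h2) (Q_e1_pos h2))
        (mul_pos (cur_pos h1 h2) (Q_alpha_e1_pos h1 h2))
    · unfold sqr
      rw [hp1, min_eq_right hp.le, abs_of_pos (by linarith)]
  rw [hq] at hsub
  generalize G.P (G.α G.e1) = p at *
  have hc : (x + (1 - p), (1 : ℝ)) ∈ bsq (x, p, 1 - p) := by
    refine ⟨?_, fun ho => ?_⟩
    · rw [mem_csq]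
      simp only
      exact ⟨⟨by linarith, le_rfl⟩, hp.le, by linarith⟩
    · rw [mem_osq] at ho
      exact absurd ho.1.2 (lt_irrefl _)
  have hw : x + (1 - p) ≤ w := (h3 (hsub hc)).1.2
  have hm1 := le_max_left p (1 - w)
  have hm2 := le_max_right p (1 - w)
  have hm3 : max p (1 - w) < 1 := max_lt hp (by linarith)
  have hl : (x, (max p (1 - w) + 1) / 2) ∈ bsq (x, p, 1 - p) := by
    refine ⟨?_, fun ho => ?_⟩
    · rw [mem_csq]
      simp only
      exact ⟨⟨le_rfl, by linarith⟩, by linarith, by linarith⟩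
    · rw [mem_osq] at ho
      exact absurd ho.1.1 (lt_irrefl _)
  exact Set.disjoint_left.1 h4 (hsub hl)
    ⟨⟨hx, by simp only; linarith⟩, by simp only; linarith, by simp only; linarith⟩

end RMap

end Pool.Agent.MP269
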