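import Pool.Agent.Lib.MP_269429_pr.Defs

/-!
# The probabilistic argument
-/

open Set Filter Topology TopologicalSpace MeasureTheory

namespace Pool.Agent.MP269

/-- `max 0 (1 - k * dist (K, A))` -/
noncomputable def cutF (A : Set (NonemptyCompacts (ℝ × ℝ))) (k : ℕ) :
    BoundedContinuousFunction (NonemptyCompacts (ℝ × ℝ)) ℝ :=
  BoundedContinuousFunction.ofNormedAddCommGroup
    (fun K => max 0 (1 - k * Metric.infDist K A))
    (continuous_const.max (continuous_const.sub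
      (continuous_const.mul (Metric.continuous_infDist_pt A)))) 1 (fun K => by
      rw [Real.norm_eq_abs, abs_of_nonneg (le_max_left _ _)]
      refine max_le zero_le_one ?_
      have : 0 ≤ (k : ℝ) * Metric.infDist K A := mul_nonneg k.cast_nonneg Metric.infDist_nonneg
      linarith)

theorem cutF_apply (A : Set (NonemptyCompacts (ℝ × ℝ))) (k : ℕ)
    (K : NonemptyCompacts (ℝ × ℝ)) :
    cutF A k K = max 0 (1 - k * Metric.infDist K A) := rfl

theorem cutF_nonneg (A : Set (NonemptyCompacts (ℝ × ℝ))) (k : ℕ)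
    (K : NonemptyCompacts (ℝ × ℝ)) : 0 ≤ cutF A k K := le_max_left _ _

theorem cutF_le_one (A : Set (NonemptyCompacts (ℝ × ℝ))) (k : ℕ)
    (K : NonemptyCompacts (ℝ × ℝ)) : cutF A k K ≤ 1 := by
  rw [cutF_apply]
  refine max_le zero_le_one ?_
  have : 0 ≤ (k : ℝ) * Metric.infDist K A := mul_nonneg k.cast_nonneg Metric.infDist_nonneg
  linarith

theorem cutF_of_mem {A : Set (NonemptyCompacts (ℝ × ℝ))} (k : ℕ)
    {K : NonemptyCompacts (ℝ × ℝ)} (hK : K ∈ A) : cutF A k K = 1 := by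
  rw [cutF_apply, Metric.infDist_zero_of_mem hK]
  simp

theorem cutF_tendsto {A : Set (NonemptyCompacts (ℝ × ℝ))} (hA : IsClosed A)
    (hne : A.Nonempty) {K : NonemptyCompacts (ℝ × ℝ)} (hK : K ∉ A) :
    Tendsto (fun k => cutF A k K) atTop (𝓝 0) := by
  have hpos : 0 < Metric.infDist K A := (hA.notMem_iff_infDist_pos hne).1 hK
  obtain ⟨N, hN⟩ := exists_nat_gt (1 / Metric.infDist K A)
  refine tendsto_const_nhds.congr' ?_
  filter_upwards [eventually_ge_atTop N] with k hk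
  rw [cutF_apply, max_eq_left]
  have h1 : (N : ℝ) ≤ k := by exact_mod_cast hk
  have h2 : 1 < (k : ℝ) * Metric.infDist K A := by
    rw [← div_lt_iff₀ hpos]
    linarith
  linarith

theorem avg_ge {C A : Set (NonemptyCompacts (ℝ × ℝ))} (hC : C.Finite) (k : ℕ) :
    ((C ∩ A).ncard : ℝ) / C.ncard ≤ avg C (cutF A k) := by
  unfold avg
  refine div_le_div_of_nonneg_right ?_ (Nat.cast_nonneg _)
  rw [finsum_mem_eq_finite_toFinset_sum _ hC]
  have hCA : (C ∩ A).Finite := hC.subset inter_subset_left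
  have h1 : ((C ∩ A).ncard : ℝ) = ∑ K ∈ hCA.toFinset, cutF A k K := by
    rw [Finset.sum_congr rfl (fun K hK => cutF_of_mem k ((hCA.mem_toFinset.1 hK).2)),
      Set.ncard_eq_toFinset_card _ hCA]
    simp
  rw [h1]
  refine Finset.sum_le_sum_of_subset_of_nonneg ?_ (fun K _ _ => cutF_nonneg A k K)
  intro K hK
  rw [Set.Finite.mem_toFinset] at hK ⊢
  exact hK.1

theorem growth {a : ℕ → ℕ} {N : ℕ} (h1 : ∀ n, a n ≤ 27 ^ n) (h2 : 1 ≤ a N)
    (h3 : ∀ n ≥ N, 54 * a n ≤ a (n + 1)) : False := by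
  have h4 : ∀ j, 54 ^ j ≤ a (N + j) := by
    intro j
    induction j with
    | zero => simpa using h2
    | succ j ih =>
      have := h3 (N + j) (by omega)
      rw [pow_succ]
      calc 54 ^ j * 54 ≤ a (N + j) * 54 := Nat.mul_le_mul_right _ ih
        _ = 54 * a (N + j) := by ring
        _ ≤ a (N + j + 1) := this
  have h5 : ∀ j, 2 ^ j ≤ 27 ^ N := by
    intro j
    have h6 : 54 ^ j ≤ 27 ^ (N + j) := (h4 j).trans (h1 _)
    have h7 : (54 : ℕ) ^ j = 27 ^ j * 2 ^ j := by rw [← mul_pow]; norm_num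
    rw [h7, pow_add, mul_comm (27 ^ N)] at h6
    exact Nat.le_of_mul_le_mul_left h6 (pow_pos (by norm_num) j)
  have h8 := h5 (27 ^ N)
  have h9 : 27 ^ N < 2 ^ (27 ^ N) := Nat.lt_two_pow_self
  omega

theorem no_conv {Ω : Type} [MeasurableSpace Ω] (μ : Measure Ω) [IsProbabilityMeasure μ]
    {S : Ω → NonemptyCompacts (ℝ × ℝ)} (hS : @Measurable _ _ _ (borel _) S)
    {A : Set (NonemptyCompacts (ℝ × ℝ))} (hA : IsClosed A) (hSA : ∀ᵐ ω ∂μ, S ω ∉ A)
    {C : ℕ → Set (NonemptyCompacts (ℝ × ℝ))} (hfin : ∀ n, (C n).Finite)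
    (hcard : ∀ n, (C n).ncard ≤ 27 ^ n) (hgrow : ∀ n, (C n).ncard ≤ (C (n + 1) ∩ A).ncard)
    {n₀ : ℕ} (hn₀ : (C n₀).Nonempty) :
    ∃ F : BoundedContinuousFunction (NonemptyCompacts (ℝ × ℝ)) ℝ,
      ¬ Tendsto (fun n => avg (C n) F) atTop (𝓝 (∫ ω, F (S ω) ∂μ)) := by
  by_contra hcon
  push Not at hcon
  have hpos : 0 < (C n₀).ncard := (Set.ncard_pos (hfin n₀)).2 hn₀
  have hne : A.Nonempty := by
    have h1 : 0 < (C (n₀ + 1) ∩ A).ncard := lt_of_lt_of_le hpos (hgrow n₀)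
    obtain ⟨K, hK⟩ := (Set.ncard_pos ((hfin (n₀ + 1)).subset inter_subset_left)).1 h1
    exact ⟨K, hK.2⟩
  have hmono : Monotone fun n => (C n).ncard := monotone_nat_of_le_succ fun n =>
    (hgrow n).trans (Set.ncard_le_ncard inter_subset_left (hfin (n + 1)))
  have hdom : Tendsto (fun k : ℕ => ∫ ω, cutF A k (S ω) ∂μ) atTop
      (𝓝 (∫ _ω : Ω, (0 : ℝ) ∂μ)) := by
    refine tendsto_integral_of_dominated_convergence (fun _ => (1 : ℝ)) ?_
      (integrable_const _) ?_ ?_
    · intro k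
      letI : MeasurableSpace (NonemptyCompacts (ℝ × ℝ)) := borel _
      haveI : BorelSpace (NonemptyCompacts (ℝ × ℝ)) := ⟨rfl⟩
      have hm : Measurable (fun ω => cutF A k (S ω)) :=
        (cutF A k).continuous.measurable.comp hS
      exact hm.aestronglyMeasurable
    · intro k
      refine Filter.Eventually.of_forall fun ω => ?_
      rw [Real.norm_eq_abs, abs_of_nonneg (cutF_nonneg A k _)]
      exact cutF_le_one A k _
    · filter_upwards [hSA] with ω hω
      exact cutF_tendsto hA hne hω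
  rw [integral_zero] at hdom
  have hk : ∀ᶠ k : ℕ in atTop, ∫ ω, cutF A k (S ω) ∂μ < 1 / 54 :=
    hdom.eventually (gt_mem_nhds (by norm_num))
  obtain ⟨k, hk⟩ := hk.exists
  have hev : ∀ᶠ n in atTop, avg (C n) (cutF A k) < 1 / 54 :=
    (hcon (cutF A k)).eventually (gt_mem_nhds hk)
  obtain ⟨N, hN⟩ := eventually_atTop.1 hev
  refine growth (a := fun n => (C n).ncard) (N := max N n₀) hcard ?_ ?_
  · exact Nat.succ_le_of_lt (lt_of_lt_of_le hpos (hmono (le_max_right _ _)))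
  · intro n hn
    have h1 : avg (C (n + 1)) (cutF A k) < 1 / 54 := hN (n + 1) (by
      have := le_max_left N n₀
      omega)
    have h2 := avg_ge (A := A) (hfin (n + 1)) k
    have h3 : (0 : ℝ) < (C (n + 1)).ncard := by
      have h4 : (C n₀).ncard ≤ (C (n + 1)).ncard := hmono (by
        have := le_max_right N n₀
        omega)
      exact_mod_cast lt_of_lt_of_le hpos h4
    have h5 : ((C (n + 1) ∩ A).ncard : ℝ) / (C (n + 1)).ncard < 1 / 54 := lt_of_le_of_lt h2 h1
    rw [div_lt_div_iff₀ h3 (by norm_num)] at h5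
    have h6 : (C (n + 1) ∩ A).ncard * 54 < 1 * (C (n + 1)).ncard := by exact_mod_cast h5
    have h7 := hgrow n
    omega

end Pool.Agent.MP269
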