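import Pool.Agent.Lib.MP_269429_pr.Geo

/-!
# Every tiling is the set of squares of a run
-/

open Set Filter Topology

namespace Pool.Agent.MP269

theorem wid_mc (p : ℝ × ℝ) (l : List (ℝ × ℝ)) : wid (mc p l) = p.1 + wid l := by
  cases l with
  | nil => rfl
  | cons r l =>
    simp only [mc]
    split_ifs
    · simp only [wid]; ring
    · rfl

theorem wid_fillv {d : ℝ} {p : ℝ × ℝ} {l : List (ℝ × ℝ)} (h : d ≤ p.1) :
    wid (fillv d p l) = p.1 + wid l := by
  unfold fillv
  split_ifs with hlt
  · simp only [wid]; ring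
  · rw [wid_mc, le_antisymm h (not_lt.1 hlt)]

theorem wid_place {d : ℝ} : ∀ {l : List (ℝ × ℝ)}, ok d l → wid (place d l) = wid l := by
  intro l
  induction l with
  | nil => intro h; exact absurd h (by simp [ok])
  | cons p l ih =>
    intro h
    cases l with
    | nil =>
      simp only [place]
      rw [wid_fillv h]
      rfl
    | cons u r =>
      by_cases hlt : p.2 < u.2
      · rcases h with h | h
        · simp only [place, if_pos hlt]
          rw [wid_fillv h.2]
          rfl
        · exact absurd hlt h.1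
      · rcases h with h | h
        · exact absurd h.1 hlt
        · simp only [place, if_neg hlt]
          rw [wid_mc, ih h.2]
          rfl

theorem Pos_mc {p : ℝ × ℝ} {l : List (ℝ × ℝ)} (h : Pos (p :: l)) : Pos (mc p l) := by
  cases l with
  | nil => exact h
  | cons r l =>
    have h1 : 0 < p.1 := h p (by simp)
    have h2 : 0 < r.1 := h r (by simp)
    simp only [mc]
    split_ifs
    · intro u hu
      rcases List.mem_cons.1 hu with rfl | hu
      · simp only; linarith
      · exact h u (by simp [hu])
    · exact h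

theorem Pos_fillv {d : ℝ} {p : ℝ × ℝ} {l : List (ℝ × ℝ)} (hd : 0 < d) (h : Pos l) :
    Pos (fillv d p l) := by
  unfold fillv
  split_ifs with hlt
  · intro u hu
    rcases List.mem_cons.1 hu with rfl | hu
    · exact hd
    · rcases List.mem_cons.1 hu with rfl | hu
      · simp only; linarith
      · exact h u hu
  · refine Pos_mc ?_
    intro u hu
    rcases List.mem_cons.1 hu with rfl | hu
    · exact hd
    · exact h u hu

theorem Pos_place {d : ℝ} (hd : 0 < d) : ∀ {l : List (ℝ × ℝ)}, Pos l → Pos (place d l) := by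
  intro l
  induction l with
  | nil => intro h; exact h
  | cons p l ih =>
    intro h
    have h' : Pos l := fun r hr => h r (List.mem_cons_of_mem _ hr)
    cases l with
    | nil => exact Pos_fillv hd h'
    | cons u r =>
      simp only [place]
      split_ifs
      · exact Pos_fillv hd h'
      · refine Pos_mc ?_
        intro v hv
        rcases List.mem_cons.1 hv with rfl | hv
        · exact h v (by simp)
        · exact ih h' v hv

theorem Dist_mc {p : ℝ × ℝ} {l : List (ℝ × ℝ)} (h : Dist l) : Dist (mc p l) := by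
  cases l with
  | nil => trivial
  | cons r l =>
    simp only [mc]
    split_ifs with he
    · cases l with
      | nil => trivial
      | cons u l =>
        refine ⟨?_, h.2⟩
        simp only
        rw [he]
        exact h.1
    · exact ⟨he, h⟩

theorem Dist_fillv {d : ℝ} {p : ℝ × ℝ} {l : List (ℝ × ℝ)} (hd : 0 < d)
    (h : Dist (p :: l)) : Dist (fillv d p l) := by
  have hl : Dist l := by
    cases l with
    | nil => trivial
    | cons u l => exact h.2
  unfold fillv
  split_ifs with hlt
  · refine ⟨?_, ?_⟩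
    · simp only
      intro e
      linarith
    · cases l with
      | nil => trivial
      | cons u l => exact ⟨h.1, h.2⟩
  · exact Dist_mc hl

theorem Dist_place {d : ℝ} (hd : 0 < d) : ∀ {l : List (ℝ × ℝ)}, Dist l → Dist (place d l) := by
  intro l
  induction l with
  | nil => intro h; exact h
  | cons p l ih =>
    intro h
    cases l with
    | nil => exact Dist_fillv hd h
    | cons u r =>
      simp only [place]
      split_ifs
      · exact Dist_fillv hd h
      · exact Dist_mc (ih h.2)

theorem exists_run_aux {w : ℝ} : ∀ (n : ℕ) (R : Finset Sqr) (l : List (ℝ × ℝ)), R.card = n →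
    (∀ q ∈ R, 0 < q.2.2) → (∀ q ∈ R, ∀ q' ∈ R, q ≠ q' → Disjoint (osq q) (osq q')) →
    (∀ q ∈ R, csq q ⊆ Icc 0 w ×ˢ Icc 0 1) → l ≠ [] → Pos l → Dist l → HB l →
    AllP (Good R) 0 l → wid l = w →
    ∃ ds, okRun ds l ∧ ds.length = n ∧ fin ds l = [(w, 1)] ∧ R = (sqs ds l).toFinset := by
  intro n
  induction n with
  | zero =>
    intro R l hn hs hd hrect hl hP hD hB hA hw
    have hR : R = ∅ := Finset.card_eq_zero.1 hn
    have hl1 : l = [(w, 1)] := by
      by_contra hne
      have hS : ∀ p, l = [p] → p.2 < 1 := by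
        intro p hp
        have h1 : p.2 ≤ 1 := hB p (by rw [hp]; simp)
        refine lt_of_le_of_ne h1 fun e => hne ?_
        rw [hp] at hw ⊢
        simp only [wid, add_zero] at hw
        rw [← hw, ← e]
      obtain ⟨q, hq, -⟩ := step hs hd hrect l 0 1 (hh l + 1) hl hP hD hB hS hA one_pos
        (by linarith) (fun q hq => by rw [hR] at hq; simp at hq)
        (fun q hq => by rw [hR] at hq; simp at hq)
      rw [hR] at hq
      simp at hq
    exact ⟨[], trivial, rfl, hl1, by simp [sqs, hR]⟩
  | succ n ih =>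
    intro R l hn hs hd hrect hl hP hD hB hA hw
    have hmem : ∀ q ∈ R, 0 ≤ q.1 ∧ 0 ≤ q.2.1 ∧ q.1 + q.2.2 ≤ w ∧ q.2.1 + q.2.2 ≤ 1 := by
      intro q hq
      have h0 := hs q hq
      have h1 : (q.1, q.2.1) ∈ csq q := by
        rw [mem_csq]
        exact ⟨⟨le_rfl, by simp only; linarith⟩, le_rfl, by simp only; linarith⟩
      have h2 : (q.1 + q.2.2, q.2.1 + q.2.2) ∈ csq q := by
        rw [mem_csq]
        exact ⟨⟨by simp only; linarith, le_rfl⟩, by simp only; linarith, le_rfl⟩
      have h3 := hrect q hq h1
      have h4 := hrect q hq h2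
      exact ⟨h3.1.1, h3.2.1, h4.1.2, h4.2.2⟩
    have hS : ∀ p, l = [p] → p.2 < 1 := by
      intro p hp
      by_contra hge
      push Not at hge
      obtain ⟨q, hq⟩ : R.Nonempty := Finset.card_pos.1 (by omega)
      have h0 := hs q hq
      obtain ⟨a1, a2, a3, a4⟩ := hmem q hq
      rw [hp] at hA hw
      simp only [wid, add_zero] at hw
      have m1 : (q.1 + q.2.2 / 2, q.2.1 + q.2.2 / 2) ∈ osq q := by
        rw [mem_osq]
        simp only
        exact ⟨⟨by linarith, by linarith⟩, by linarith, by linarith⟩
      refine Set.disjoint_left.1 (hA.1.1 q hq) m1 ⟨⟨?_, ?_⟩, ?_⟩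
      · simp only; linarith
      · simp only; linarith
      · simp only [mem_Iic]; linarith
    obtain ⟨q, hq, h1, h2, -, h4, h5⟩ := step hs hd hrect l 0 1 (hh l + 1) hl hP hD hB hS hA
      one_pos (by linarith)
      (fun q hq => by
        rw [Set.disjoint_left]
        rintro p hp ⟨hp1, -⟩
        rw [mem_osq] at hp
        linarith [(hmem q hq).1, hp.1.1, hp1.2])
      (fun q hq => by
        rw [Set.disjoint_left]
        rintro p hp ⟨hp1, -⟩
        rw [mem_osq] at hp
        rw [mem_Ici, hw] at hp1
        linarith [(hmem q hq).2.2.1, hp.1.2])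
    have hne : place q.2.2 l ≠ [] := by
      cases l with
      | nil => exact absurd rfl hl
      | cons p l => exact place_ne_nil _ _ _
    have hq0 := hs q hq
    obtain ⟨ds, b1, b2, b3, b4⟩ := ih (R.erase q) (place q.2.2 l)
      (by rw [Finset.card_erase_of_mem hq, hn]; rfl)
      (fun q' hq' => hs q' (Finset.mem_of_mem_erase hq'))
      (fun q' hq' q'' hq'' => hd q' (Finset.mem_of_mem_erase hq') q''
        (Finset.mem_of_mem_erase hq''))
      (fun q' hq' => hrect q' (Finset.mem_of_mem_erase hq')) hne (Pos_place hq0 hP)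
      (Dist_place hq0 hD) h5 h4 (by rw [wid_place h2, hw])
    refine ⟨q.2.2 :: ds, ⟨hq0, h2, b1⟩, by simp [b2], b3, ?_⟩
    simp only [sqs, List.toFinset_cons]
    rw [← b4, ← h1]
    exact (Finset.insert_erase hq).symm

theorem IsTiling.csq_subset {w : ℝ} {T : Finset Sqr} (hT : IsTiling w T) {q : Sqr}
    (hq : q ∈ T) : csq q ⊆ Icc 0 w ×ˢ Icc 0 1 := by
  rw [← hT.cover]
  exact Set.subset_biUnion_of_mem (u := fun q => csq q) hq

theorem exists_run {w : ℝ} {T : Finset Sqr} (hT : IsTiling w T) :
    ∃ ds, okRun ds [(w, 0)] ∧ ds.length = T.card ∧ fin ds [(w, 0)] = [(w, 1)] ∧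
      T = (sqs ds [(w, 0)]).toFinset := by
  refine exists_run_aux T.card T [(w, 0)] rfl hT.side hT.disj
    (fun q hq => hT.csq_subset hq) (by simp) ?_ trivial ?_ ⟨⟨?_, ?_⟩, trivial⟩ (by simp [wid])
  · intro p hp
    simp only [List.mem_singleton] at hp
    rw [hp]
    exact hT.wpos
  · intro p hp
    simp only [List.mem_singleton] at hp
    rw [hp]
    exact zero_le_one
  · intro q hq
    rw [Set.disjoint_left]
    rintro p hp ⟨-, hp2⟩
    rw [mem_osq] at hp
    have h0 := hT.side q hq
    have h1 : (q.1, q.2.1) ∈ csq q := by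
      rw [mem_csq]
      exact ⟨⟨le_rfl, by simp only; linarith⟩, le_rfl, by simp only; linarith⟩
    have h3 := hT.csq_subset hq h1
    have h4 : (0 : ℝ) ≤ q.2.1 := h3.2.1
    have h5 : p.2 ≤ 0 := hp2
    linarith [hp.2.1]
  · intro _
    rw [hT.cover]
    simp only [zero_add]
    exact le_rfl

end Pool.Agent.MP269
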