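import Pool.Agent.Lib.MP_269429_pr.Defs

/-!
# Runs with the same symbols have the same sides
-/

namespace Pool.Agent.MP269

theorem c3_lt {a b : ℝ} (h : a < b) : c3 a b = 0 := by
  unfold c3; rw [if_pos h]

theorem c3_eq {a b : ℝ} (h : a = b) : c3 a b = 1 := by
  unfold c3; rw [if_neg (by rw [h]; exact lt_irrefl b), if_pos h]

theorem c3_gt {a b : ℝ} (h : b < a) : c3 a b = 2 := by
  unfold c3; rw [if_neg (not_lt.2 h.le), if_neg h.ne']

theorem c3_iff {a b a' b' : ℝ} (h : c3 a b = c3 a' b') :
    (a < b ↔ a' < b') ∧ (a = b ↔ a' = b') := by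
  rcases lt_trichotomy a b with h1 | h1 | h1 <;> rcases lt_trichotomy a' b' with h2 | h2 | h2
  · exact ⟨⟨fun _ => h2, fun _ => h1⟩, ⟨fun e => absurd e h1.ne, fun e => absurd e h2.ne⟩⟩
  · rw [c3_lt h1, c3_eq h2] at h; exact absurd h (by decide)
  · rw [c3_lt h1, c3_gt h2] at h; exact absurd h (by decide)
  · rw [c3_eq h1, c3_lt h2] at h; exact absurd h (by decide)
  · exact ⟨⟨fun e => absurd h1 e.ne, fun e => absurd h2 e.ne⟩, ⟨fun _ => h2, fun _ => h1⟩⟩
  · rw [c3_eq h1, c3_gt h2] at h; exact absurd h (by decide)
  · rw [c3_gt h1, c3_lt h2] at h; exact absurd h (by decide)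
  · rw [c3_gt h1, c3_eq h2] at h; exact absurd h (by decide)
  · exact ⟨⟨fun e => absurd e (not_lt.2 h1.le), fun e => absurd e (not_lt.2 h2.le)⟩,
      ⟨fun e => absurd e h1.ne', fun e => absurd e h2.ne'⟩⟩

theorem c3_of_iff {a b a' b' : ℝ} (h1 : a < b ↔ a' < b') (h2 : a = b ↔ a' = b') :
    c3 a b = c3 a' b' := by
  unfold c3
  simp only [h1, h2]

/-- height of the first piece -/
noncomputable def hh : List (ℝ × ℝ) → ℝ
  | [] => 0
  | p :: _ => p.2

theorem hh_mc (p : ℝ × ℝ) (l : List (ℝ × ℝ)) : hh (mc p l) = p.2 := by
  cases l with
  | nil => rfl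
  | cons r R =>
    simp only [mc]
    split_ifs <;> rfl

theorem hh_fillv (d : ℝ) (p : ℝ × ℝ) (R : List (ℝ × ℝ)) : hh (fillv d p R) = p.2 + d := by
  unfold fillv
  split_ifs
  · rfl
  · rw [hh_mc]

theorem place_ne_nil (d : ℝ) (p : ℝ × ℝ) (l : List (ℝ × ℝ)) : place d (p :: l) ≠ [] := by
  have hm : ∀ (p : ℝ × ℝ) (l : List (ℝ × ℝ)), mc p l ≠ [] := by
    intro p l
    cases l with
    | nil => simp [mc]
    | cons r R =>
      simp only [mc]
      split_ifs <;> simp
  have hf : ∀ (d : ℝ) (p : ℝ × ℝ) (R : List (ℝ × ℝ)), fillv d p R ≠ [] := by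
    intro d p R
    unfold fillv
    split_ifs
    · simp
    · exact hm _ _
  cases l with
  | nil => exact hf d p []
  | cons q r =>
    unfold place
    split_ifs
    · exact hf _ _ _
    · exact hm _ _

theorem hh_place (d : ℝ) (q : ℝ × ℝ) (r : List (ℝ × ℝ)) :
    (isV (q :: r) → hh (place d (q :: r)) = q.2 + d) ∧
      (¬ isV (q :: r) → hh (place d (q :: r)) = q.2) := by
  cases r with
  | nil =>
    refine ⟨fun _ => ?_, fun h => absurd trivial h⟩
    unfold place
    exact hh_fillv d q []
  | cons u r =>
    constructor
    · intro h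
      have h' : q.2 < u.2 := h
      unfold place
      rw [if_pos h']
      exact hh_fillv d q _
    · intro h
      have h' : ¬ q.2 < u.2 := h
      unfold place
      rw [if_neg h']
      exact hh_mc q _

theorem Sim.isV_iff {q q' : ℝ × ℝ} {r r' : List (ℝ × ℝ)} (h : Sim (q :: r) (q' :: r')) :
    isV (q :: r) ↔ isV (q' :: r') := by
  cases r with
  | nil =>
    cases r' with
    | nil => exact Iff.rfl
    | cons u' r' => exact absurd h (by simp [Sim])
  | cons u r =>
    cases r' with
    | nil => exact absurd h (by simp [Sim])
    | cons u' r' =>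
      exact (c3_iff h.1).1

/-- `Sim` for lists with a new first piece -/
theorem Sim.cons {p p' : ℝ × ℝ} {l l' : List (ℝ × ℝ)} (h : Sim l l')
    (hc : l ≠ [] → c3 p.2 (hh l) = c3 p'.2 (hh l')) : Sim (p :: l) (p' :: l') := by
  cases l with
  | nil =>
    cases l' with
    | nil => trivial
    | cons u' r' => exact absurd h (by simp [Sim])
  | cons u r =>
    cases l' with
    | nil => exact absurd h (by simp [Sim])
    | cons u' r' => exact ⟨hc (by simp), h⟩

theorem mc_sim {p p' : ℝ × ℝ} {l l' : List (ℝ × ℝ)} (h : Sim l l')
    (hc : l ≠ [] → c3 p.2 (hh l) = c3 p'.2 (hh l')) :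
    Sim (mc p l) (mc p' l') ∧ mix (mc p l) (mc p' l') = p.1 * p'.2 + mix l l' := by
  cases l with
  | nil =>
    cases l' with
    | nil => exact ⟨trivial, by simp [mc, mix]⟩
    | cons u' r' => exact absurd h (by simp [Sim])
  | cons u r =>
    cases l' with
    | nil => exact absurd h (by simp [Sim])
    | cons u' r' =>
      have hc' : c3 p.2 u.2 = c3 p'.2 u'.2 := hc (by simp)
      obtain ⟨-, h2⟩ := c3_iff hc'
      simp only [mc]
      by_cases he : p.2 = u.2
      · have he' : p'.2 = u'.2 := h2.1 he
        rw [if_pos he, if_pos he']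
        constructor
        · cases r with
          | nil =>
            cases r' with
            | nil => trivial
            | cons v' r' => exact absurd h (by simp [Sim])
          | cons v r =>
            cases r' with
            | nil => exact absurd h (by simp [Sim])
            | cons v' r' =>
              refine ⟨?_, h.2⟩
              have := h.1
              simp only [he, he']
              exact this
        · simp only [mix]
          rw [← he']
          ring
      · have he' : ¬ p'.2 = u'.2 := fun e => he (h2.2 e)
        rw [if_neg he, if_neg he']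
        exact ⟨⟨hc', h⟩, by simp only [mix]⟩

theorem fillv_sim {d d' : ℝ} {p p' : ℝ × ℝ} {R R' : List (ℝ × ℝ)} (h : Sim R R')
    (hpR : R ≠ [] → c3 p.2 (hh R) = c3 p'.2 (hh R')) (hd : 0 < d) (hd' : 0 < d')
    (hdp : d ≤ p.1) (hdp' : d' ≤ p'.1)
    (hw : c3 d p.1 = c3 d' p'.1)
    (hr : R ≠ [] → c3 (p.2 + d) (hh R) = c3 (p'.2 + d') (hh R')) :
    Sim (fillv d p R) (fillv d' p' R') ∧
      mix (fillv d p R) (fillv d' p' R') = p.1 * p'.2 + mix R R' + d * d' := by
  obtain ⟨h1, h2⟩ := c3_iff hw
  unfold fillv
  by_cases hlt : d < p.1
  · have hlt' : d' < p'.1 := h1.1 hlt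
    rw [if_pos hlt, if_pos hlt']
    constructor
    · refine ⟨?_, Sim.cons h fun hne => hpR hne⟩
      rw [c3_gt (by simpa using hd), c3_gt (by simpa using hd')]
    · simp only [mix]
      ring
  · have hlt' : ¬ d' < p'.1 := fun e => hlt (h1.2 e)
    have e1 : d = p.1 := le_antisymm hdp (not_lt.1 hlt)
    have e2 : d' = p'.1 := le_antisymm hdp' (not_lt.1 hlt')
    rw [if_neg hlt, if_neg hlt']
    obtain ⟨h3, h4⟩ := mc_sim (p := (d, p.2 + d)) (p' := (d', p'.2 + d')) h hr
    refine ⟨h3, ?_⟩
    rw [h4]
    simp only
    rw [← e1]
    ring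

theorem place_sim {d d' : ℝ} (hd : 0 < d) (hd' : 0 < d') : ∀ {l l' : List (ℝ × ℝ)},
    Sim l l' → sym d l = sym d' l' → ok d l → ok d' l' →
    Sim (place d l) (place d' l') ∧ mix (place d l) (place d' l') = mix l l' + d * d' := by
  intro l
  induction l with
  | nil =>
    intro l' h _ h1 _
    exact absurd h1 (by simp [ok])
  | cons p l ih =>
    intro l' h hs h1 h2
    cases l' with
    | nil => exact absurd h2 (by simp [ok])
    | cons p' l' =>
      cases l with
      | nil =>
        cases l' with
        | cons q' r' => exact absurd h (by simp [Sim])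
        | nil =>
          have e1 : c3 d p.1 = c3 d' p'.1 := by
            have := congrArg (fun x => x.2.1) hs
            simpa [sym] using this
          have key := fillv_sim (d := d) (d' := d') (p := p) (p' := p') (R := []) (R' := [])
            trivial (fun h => absurd rfl h) hd hd' h1 h2 e1 (fun h => absurd rfl h)
          refine ⟨key.1, ?_⟩
          have k2 := key.2
          simp only [place, mix] at k2 ⊢
          rw [k2]
      | cons q r =>
        cases l' with
        | nil => exact absurd h (by simp [Sim])
        | cons q' r' =>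
          obtain ⟨hc, hS⟩ := h
          obtain ⟨hlt, -⟩ := c3_iff hc
          by_cases hq : p.2 < q.2
          · have hq' : p'.2 < q'.2 := hlt.1 hq
            have hs' : sym d (p :: q :: r) = (1, c3 d p.1, c3 (p.2 + d) q.2) := by
              simp only [sym, if_pos hq]
            have hs'' : sym d' (p' :: q' :: r') = (1, c3 d' p'.1, c3 (p'.2 + d') q'.2) := by
              simp only [sym, if_pos hq']
            rw [hs', hs''] at hs
            have e1 : c3 d p.1 = c3 d' p'.1 := congrArg (fun x => x.2.1) hs
            have e2 : c3 (p.2 + d) q.2 = c3 (p'.2 + d') q'.2 := congrArg (fun x => x.2.2) hs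
            have o1 : d ≤ p.1 := by
              rcases h1 with h1 | h1
              · exact h1.2
              · exact absurd hq h1.1
            have o2 : d' ≤ p'.1 := by
              rcases h2 with h2 | h2
              · exact h2.2
              · exact absurd hq' h2.1
            have key := fillv_sim (d := d) (d' := d') (p := p) (p' := p') (R := q :: r)
              (R' := q' :: r') hS (fun _ => hc) hd hd' o1 o2 e1 (fun _ => e2)
            simp only [place, if_pos hq, if_pos hq']
            refine ⟨key.1, ?_⟩
            rw [key.2]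
            simp only [mix]
          · have hq' : ¬ p'.2 < q'.2 := fun e => hq (hlt.2 e)
            have o1 : ok d (q :: r) := by
              rcases h1 with h1 | h1
              · exact absurd h1.1 hq
              · exact h1.2
            have o2 : ok d' (q' :: r') := by
              rcases h2 with h2 | h2
              · exact absurd h2.1 hq'
              · exact h2.2
            simp only [place, if_neg hq, if_neg hq']
            by_cases hV : isV (q :: r)
            · have hV' : isV (q' :: r') := hS.isV_iff.1 hV
              have hs' : sym d (p :: q :: r) = (c3 p.2 (q.2 + d), (sym d (q :: r)).2) := by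
                simp only [sym, if_neg hq, if_pos hV]
              have hs'' : sym d' (p' :: q' :: r') =
                  (c3 p'.2 (q'.2 + d'), (sym d' (q' :: r')).2) := by
                simp only [sym, if_neg hq', if_pos hV']
              rw [hs', hs''] at hs
              have e1 : c3 p.2 (q.2 + d) = c3 p'.2 (q'.2 + d') := congrArg (fun x => x.1) hs
              have e2 : (sym d (q :: r)).2 = (sym d' (q' :: r')).2 :=
                congrArg (fun x => x.2) hs
              have e3 : ∀ (d : ℝ) (q : ℝ × ℝ) (r : List (ℝ × ℝ)), isV (q :: r) →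
                  (sym d (q :: r)).1 = 1 := by
                intro d q r hV
                cases r with
                | nil => rfl
                | cons u r =>
                  have hV' : q.2 < u.2 := hV
                  simp only [sym, if_pos hV']
              have e4 : sym d (q :: r) = sym d' (q' :: r') :=
                Prod.ext (by rw [e3 d q r hV, e3 d' q' r' hV']) e2
              obtain ⟨k1, k2⟩ := ih hS e4 o1 o2
              obtain ⟨k3, k4⟩ := mc_sim (p := p) (p' := p') k1 (fun _ => by
                rw [(hh_place d q r).1 hV, (hh_place d' q' r').1 hV']; exact e1)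
              refine ⟨k3, ?_⟩
              rw [k4, k2]
              simp only [mix]
              ring
            · have hV' : ¬ isV (q' :: r') := fun e => hV (hS.isV_iff.2 e)
              have hs' : sym d (p :: q :: r) = sym d (q :: r) := by
                simp only [sym, if_neg hq, if_neg hV]
              have hs'' : sym d' (p' :: q' :: r') = sym d' (q' :: r') := by
                simp only [sym, if_neg hq', if_neg hV']
              rw [hs', hs''] at hs
              obtain ⟨k1, k2⟩ := ih hS hs o1 o2
              obtain ⟨k3, k4⟩ := mc_sim (p := p) (p' := p') k1 (fun _ => by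
                rw [(hh_place d q r).2 hV, (hh_place d' q' r').2 hV']; exact hc)
              refine ⟨k3, ?_⟩
              rw [k4, k2]
              simp only [mix]
              ring

theorem run_sim : ∀ {ds ds' : List ℝ} {l l' : List (ℝ × ℝ)}, Sim l l' → okRun ds l →
    okRun ds' l' → run ds l = run ds' l' →
    mix (fin ds l) (fin ds' l') = mix l l' + (List.zipWith (· * ·) ds ds').sum := by
  intro ds
  induction ds with
  | nil =>
    intro ds' l l' _ _ _ hr
    cases ds' with
    | nil => simp [fin]
    | cons d' ds' => exact absurd hr (by simp [run])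
  | cons d ds ih =>
    intro ds' l l' h h1 h2 hr
    cases ds' with
    | nil => exact absurd hr (by simp [run])
    | cons d' ds' =>
      obtain ⟨a1, a2, a3⟩ := h1
      obtain ⟨b1, b2, b3⟩ := h2
      simp only [run, List.cons.injEq] at hr
      obtain ⟨k1, k2⟩ := place_sim a1 b1 h hr.1 a2 b2
      simp only [fin, List.zipWith_cons_cons, List.sum_cons]
      rw [ih k1 a3 b3 hr.2, k2]
      ring

theorem run_length : ∀ (ds : List ℝ) (l : List (ℝ × ℝ)), (run ds l).length = ds.length := by
  intro ds
  induction ds with
  | nil => intro l; rfl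
  | cons d ds ih => intro l; simp only [run, List.length_cons, ih]

theorem eq_of_sum_sq : ∀ {ds ds' : List ℝ}, ds.length = ds'.length →
    (List.zipWith (· * ·) ds ds).sum + (List.zipWith (· * ·) ds' ds').sum ≤
      (List.zipWith (· * ·) ds ds').sum + (List.zipWith (· * ·) ds' ds).sum → ds = ds' := by
  have key : ∀ {ds ds' : List ℝ}, ds.length = ds'.length →
      0 ≤ (List.zipWith (· * ·) ds ds).sum + (List.zipWith (· * ·) ds' ds').sum -
        ((List.zipWith (· * ·) ds ds').sum + (List.zipWith (· * ·) ds' ds).sum) ∧
      ((List.zipWith (· * ·) ds ds).sum + (List.zipWith (· * ·) ds' ds').sum -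
        ((List.zipWith (· * ·) ds ds').sum + (List.zipWith (· * ·) ds' ds).sum) ≤ 0 →
        ds = ds') := by
    intro ds
    induction ds with
    | nil =>
      intro ds' h
      cases ds' with
      | nil => simp
      | cons d' ds' => exact absurd h (by simp)
    | cons d ds ih =>
      intro ds' h
      cases ds' with
      | nil => exact absurd h (by simp)
      | cons d' ds' =>
        have h' : ds.length = ds'.length := by simpa using h
        obtain ⟨i1, i2⟩ := ih h'
        simp only [List.zipWith_cons_cons, List.sum_cons]
        have hsq := sq_nonneg (d - d')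
        constructor
        · nlinarith
        · intro hle
          have h3 : (d - d') ^ 2 ≤ 0 := by nlinarith
          have h4 : d - d' = 0 := by
            have := le_antisymm h3 hsq
            exact pow_eq_zero_iff (two_ne_zero) |>.1 this
          have h5 : d = d' := by linarith
          have h6 : ds = ds' := i2 (by nlinarith)
          rw [h5, h6]
  intro ds ds' h hle
  exact (key h).2 (by linarith)

theorem run_unique {w w' : ℝ} {ds ds' : List ℝ} (h : okRun ds [(w, 0)])
    (h' : okRun ds' [(w', 0)]) (hf : fin ds [(w, 0)] = [(w, 1)])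
    (hf' : fin ds' [(w', 0)] = [(w', 1)])
    (hr : run ds [(w, 0)] = run ds' [(w', 0)]) : w = w' ∧ ds = ds' := by
  have s1 := run_sim (l := [(w, 0)]) (l' := [(w', 0)]) trivial h h' hr
  have s2 := run_sim (l := [(w', 0)]) (l' := [(w, 0)]) trivial h' h hr.symm
  have s3 := run_sim (l := [(w, 0)]) (l' := [(w, 0)]) trivial h h rfl
  have s4 := run_sim (l := [(w', 0)]) (l' := [(w', 0)]) trivial h' h' rfl
  rw [hf, hf'] at s1
  rw [hf, hf'] at s2
  rw [hf] at s3
  rw [hf'] at s4
  simp only [mix, mul_one, mul_zero, add_zero, zero_add] at s1 s2 s3 s4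
  have hl : ds.length = ds'.length := by
    have := congrArg List.length hr
    rwa [run_length, run_length] at this
  have e : ds = ds' := eq_of_sum_sq hl (by rw [← s1, ← s2, ← s3, ← s4])
  refine ⟨?_, e⟩
  rw [s1, s4, e]

end Pool.Agent.MP269
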