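import Pool.Agent.Lib.MP_269429_pr.Run

/-!
# Adding a square on top
-/

open Set Filter Topology TopologicalSpace

namespace Pool.Agent.MP269

/-- scaling of the plane -/
def scl (s : ℝ) (p : ℝ × ℝ) : ℝ × ℝ := (s * p.1, s * p.2)

/-- scaling of a square -/
def sclq (s : ℝ) (q : Sqr) : Sqr := (s * q.1, s * q.2.1, s * q.2.2)

theorem mem_csq_scl {s : ℝ} (hs : 0 < s) {q : Sqr} {p : ℝ × ℝ} :
    scl s p ∈ csq (sclq s q) ↔ p ∈ csq q := by
  rw [mem_csq, mem_csq]
  simp only [scl, sclq]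
  rw [← mul_add, ← mul_add, mul_le_mul_iff_right₀ hs, mul_le_mul_iff_right₀ hs,
    mul_le_mul_iff_right₀ hs, mul_le_mul_iff_right₀ hs]

theorem mem_osq_scl {s : ℝ} (hs : 0 < s) {q : Sqr} {p : ℝ × ℝ} :
    scl s p ∈ osq (sclq s q) ↔ p ∈ osq q := by
  rw [mem_osq, mem_osq]
  simp only [scl, sclq]
  rw [← mul_add, ← mul_add, mul_lt_mul_iff_right₀ hs, mul_lt_mul_iff_right₀ hs,
    mul_lt_mul_iff_right₀ hs, mul_lt_mul_iff_right₀ hs]

theorem exists_scl {s : ℝ} (hs : 0 < s) (p : ℝ × ℝ) : ∃ p', scl s p' = p := by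
  refine ⟨(p.1 / s, p.2 / s), ?_⟩
  unfold scl
  simp only
  rw [mul_div_cancel₀ _ hs.ne', mul_div_cancel₀ _ hs.ne']

theorem scl_injective {s : ℝ} (hs : 0 < s) : Function.Injective (scl s) := by
  intro p p' h
  unfold scl at h
  simp only [Prod.mk.injEq] at h
  exact Prod.ext (mul_left_cancel₀ hs.ne' h.1) (mul_left_cancel₀ hs.ne' h.2)

theorem sclq_injective {s : ℝ} (hs : 0 < s) : Function.Injective (sclq s) := by
  intro p p' h
  unfold sclq at h
  simp only [Prod.mk.injEq] at h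
  exact Prod.ext (mul_left_cancel₀ hs.ne' h.1)
    (Prod.ext (mul_left_cancel₀ hs.ne' h.2.1) (mul_left_cancel₀ hs.ne' h.2.2))

theorem bsq_scl {s : ℝ} (hs : 0 < s) (q : Sqr) : bsq (sclq s q) = scl s '' bsq q := by
  ext p
  obtain ⟨p', rfl⟩ := exists_scl hs p
  rw [(scl_injective hs).mem_set_image]
  unfold bsq
  rw [Set.mem_sdiff, Set.mem_sdiff, mem_csq_scl hs, mem_osq_scl hs]

theorem isCompact_bsq (q : Sqr) : IsCompact (bsq q) := by
  have h1 : IsCompact (csq q) := isCompact_Icc.prod isCompact_Icc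
  exact h1.diff (isOpen_osq q)

theorem isCompact_skel (T : Finset Sqr) : IsCompact (skel T) := by
  unfold skel
  exact T.finite_toSet.isCompact_biUnion fun q _ => isCompact_bsq q

theorem IsTiling.bounds {w : ℝ} {T : Finset Sqr} (hT : IsTiling w T) {q : Sqr} (hq : q ∈ T) :
    0 ≤ q.1 ∧ 0 ≤ q.2.1 ∧ q.1 + q.2.2 ≤ w ∧ q.2.1 + q.2.2 ≤ 1 := by
  have h0 := hT.side q hq
  have h1 : (q.1, q.2.1) ∈ csq q := by
    rw [mem_csq]
    exact ⟨⟨le_rfl, by simp only; linarith⟩, le_rfl, by simp only; linarith⟩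
  have h2 : (q.1 + q.2.2, q.2.1 + q.2.2) ∈ csq q := by
    rw [mem_csq]
    exact ⟨⟨by simp only; linarith, le_rfl⟩, by simp only; linarith, le_rfl⟩
  have h3 := hT.csq_subset hq h1
  have h4 := hT.csq_subset hq h2
  exact ⟨h3.1.1, h3.2.1, h4.1.2, h4.2.2⟩

theorem IsTiling.skel_subset {w : ℝ} {T : Finset Sqr} (hT : IsTiling w T) :
    skel T ⊆ Icc 0 w ×ˢ Icc 0 1 := by
  unfold skel
  refine iUnion₂_subset fun q hq => ?_
  exact sdiff_subset.trans (hT.csq_subset hq)

theorem IsTiling.top_mem {w : ℝ} {T : Finset Sqr} (hT : IsTiling w T) {x : ℝ}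
    (hx : x ∈ Icc 0 w) : (x, (1 : ℝ)) ∈ skel T := by
  have h : (x, (1 : ℝ)) ∈ ⋃ q ∈ T, csq q := by
    rw [hT.cover]
    exact ⟨hx, zero_le_one, le_rfl⟩
  simp only [mem_iUnion] at h
  obtain ⟨q, hq, hm⟩ := h
  unfold skel
  simp only [mem_iUnion]
  refine ⟨q, hq, hm, fun ho => ?_⟩
  rw [mem_osq] at ho
  have := (hT.bounds hq).2.2.2
  linarith [ho.2.2]

theorem IsTiling.nonempty_skel {w : ℝ} {T : Finset Sqr} (hT : IsTiling w T) :
    (skel T).Nonempty := ⟨_, hT.top_mem (x := w) ⟨hT.wpos.le, le_rfl⟩⟩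

theorem IsTiling.isGreatest {w : ℝ} {T : Finset Sqr} (hT : IsTiling w T) :
    IsGreatest (Prod.fst '' skel T) w := by
  refine ⟨⟨_, hT.top_mem (x := w) ⟨hT.wpos.le, le_rfl⟩, rfl⟩, ?_⟩
  rintro x ⟨p, hp, rfl⟩
  exact (hT.skel_subset hp).1.2

/-- the compact set of a tiling -/
def toNC {w : ℝ} {T : Finset Sqr} (hT : IsTiling w T) : NonemptyCompacts (ℝ × ℝ) :=
  ⟨⟨skel T, isCompact_skel T⟩, hT.nonempty_skel⟩

theorem coe_toNC {w : ℝ} {T : Finset Sqr} (hT : IsTiling w T) :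
    (toNC hT : Set (ℝ × ℝ)) = skel T := rfl

/-- the tiling with the additional square -/
noncomputable def addT (w : ℝ) (T : Finset Sqr) : Finset Sqr :=
  insert (0, 1 / (1 + w), 1 / (1 + w) * w) (T.image (sclq (1 / (1 + w))))

theorem addT_notMem {w : ℝ} {T : Finset Sqr} (hT : IsTiling w T) :
    ((0, 1 / (1 + w), 1 / (1 + w) * w) : Sqr) ∉ T.image (sclq (1 / (1 + w))) := by
  have hw := hT.wpos
  have hs : 0 < 1 / (1 + w) := by positivity
  intro h
  obtain ⟨q, hq, he⟩ := Finset.mem_image.1 h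
  simp only [sclq, Prod.mk.injEq] at he
  have h1 : q.2.1 = 1 := by
    have := he.2.1
    exact mul_left_cancel₀ hs.ne' (by rw [this, mul_one])
  have := (hT.bounds hq).2.2.2
  linarith [hT.side q hq]

theorem card_addT {w : ℝ} {T : Finset Sqr} (hT : IsTiling w T) :
    (addT w T).card = T.card + 1 := by
  have hw := hT.wpos
  have hs : 0 < 1 / (1 + w) := by positivity
  unfold addT
  rw [Finset.card_insert_of_notMem (addT_notMem hT),
    Finset.card_image_of_injective _ (sclq_injective hs)]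

theorem skel_addT {w : ℝ} {T : Finset Sqr} (hT : IsTiling w T) :
    skel (addT w T) = scl (1 / (1 + w)) '' skel T ∪
      bsq (0, 1 / (1 + w), 1 / (1 + w) * w) := by
  have hw := hT.wpos
  have hs : 0 < 1 / (1 + w) := by positivity
  unfold skel addT
  rw [Finset.set_biUnion_insert, Finset.set_biUnion_finset_image, union_comm]
  congr 1
  rw [image_iUnion₂]
  exact iUnion₂_congr fun q _ => bsq_scl hs q

theorem IsTiling.addT {w : ℝ} {T : Finset Sqr} (hT : IsTiling w T) :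
    IsTiling (1 / (1 + w) * w) (addT w T) := by
  have hw := hT.wpos
  have hs : 0 < 1 / (1 + w) := by positivity
  have hs1 : 1 / (1 + w) + 1 / (1 + w) * w = 1 := by field_simp
  have hlow : ∀ q ∈ T, ∀ p ∈ osq (sclq (1 / (1 + w)) q), p.2 < 1 / (1 + w) := by
    intro q hq p hp
    rw [mem_osq] at hp
    have h1 := (hT.bounds hq).2.2.2
    have h2 := hp.2.2
    simp only [sclq] at h2
    rw [← mul_add] at h2
    have h3 : 1 / (1 + w) * (q.2.1 + q.2.2) ≤ 1 / (1 + w) * 1 :=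
      mul_le_mul_of_nonneg_left h1 hs.le
    linarith
  have htop : ∀ p ∈ osq (0, 1 / (1 + w), 1 / (1 + w) * w), 1 / (1 + w) < p.2 := by
    intro p hp
    rw [mem_osq] at hp
    exact hp.2.1
  refine ⟨by positivity, ?_, ?_, ?_⟩
  · intro q hq
    rcases Finset.mem_insert.1 hq with rfl | hq
    · simp only; positivity
    · obtain ⟨q', hq', rfl⟩ := Finset.mem_image.1 hq
      exact mul_pos hs (hT.side q' hq')
  · intro q hq q' hq' hne
    rcases Finset.mem_insert.1 hq with rfl | hq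
    · rcases Finset.mem_insert.1 hq' with rfl | hq'
      · exact absurd rfl hne
      · obtain ⟨u', hu', rfl⟩ := Finset.mem_image.1 hq'
        rw [Set.disjoint_left]
        intro p hp hp'
        exact absurd (htop p hp) (not_lt.2 (hlow u' hu' p hp').le)
    · obtain ⟨u, hu, rfl⟩ := Finset.mem_image.1 hq
      rcases Finset.mem_insert.1 hq' with rfl | hq'
      · rw [Set.disjoint_left]
        intro p hp hp'
        exact absurd (htop p hp') (not_lt.2 (hlow u hu p hp).le)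
      · obtain ⟨u', hu', rfl⟩ := Finset.mem_image.1 hq'
        have hne' : u ≠ u' := fun e => hne (by rw [e])
        rw [Set.disjoint_left]
        intro p hp hp'
        obtain ⟨p', rfl⟩ := exists_scl hs p
        rw [mem_osq_scl hs] at hp hp'
        exact Set.disjoint_left.1 (hT.disj u hu u' hu' hne') hp hp'
  · ext p
    simp only [MP269.addT, mem_iUnion, exists_prop, Finset.mem_insert, Finset.mem_image]
    constructor
    · rintro ⟨q, rfl | ⟨u, hu, rfl⟩, hp⟩
      · rw [mem_csq] at hp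
        simp only at hp
        exact ⟨⟨hp.1.1, by linarith [hp.1.2]⟩, by linarith [hp.2.1], by linarith [hp.2.2]⟩
      · obtain ⟨p', rfl⟩ := exists_scl hs p
        rw [mem_csq_scl hs] at hp
        have := hT.csq_subset hu hp
        obtain ⟨⟨a1, a2⟩, a3, a4⟩ := this
        refine ⟨⟨mul_nonneg hs.le a1, mul_le_mul_of_nonneg_left a2 hs.le⟩,
          mul_nonneg hs.le a3, ?_⟩
        have h3 : 1 / (1 + w) * p'.2 ≤ 1 / (1 + w) * 1 := mul_le_mul_of_nonneg_left a4 hs.le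
        have h4 : 0 < 1 / (1 + w) * w := by positivity
        simp only [scl]
        linarith
    · rintro ⟨⟨a1, a2⟩, a3, a4⟩
      rcases le_total (1 / (1 + w)) p.2 with h | h
      · refine ⟨_, Or.inl rfl, ?_⟩
        rw [mem_csq]
        simp only
        exact ⟨⟨a1, by linarith⟩, h, by linarith⟩
      · obtain ⟨p', rfl⟩ := exists_scl hs p
        simp only [scl] at a1 a2 a3 h
        have h1 : 0 ≤ p'.1 := nonneg_of_mul_nonneg_right a1 hs
        have h2 : 0 ≤ p'.2 := nonneg_of_mul_nonneg_right a3 hs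
        have h3 : p'.1 ≤ w := le_of_mul_le_mul_left a2 hs
        have h4 : p'.2 ≤ 1 := le_of_mul_le_mul_left (by linarith) hs
        have h5 : p' ∈ ⋃ q ∈ T, csq q := by
          rw [hT.cover]
          exact ⟨⟨h1, h3⟩, h2, h4⟩
        simp only [mem_iUnion, exists_prop] at h5
        obtain ⟨q, hq, hp⟩ := h5
        exact ⟨_, Or.inr ⟨q, hq, rfl⟩, (mem_csq_scl hs).2 hp⟩

theorem isTopAdd_eq {w : ℝ} {T : Finset Sqr} (hT : IsTiling w T) {K' : Set (ℝ × ℝ)}
    (h : IsTopAdd (skel T) K') : K' = skel (addT w T) := by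
  obtain ⟨w', h1, h2⟩ := h
  have e : w' = w := h1.unique hT.isGreatest
  rw [h2, e, skel_addT hT]
  rfl

theorem isTopAdd_skel {w : ℝ} {T : Finset Sqr} (hT : IsTiling w T) :
    IsTopAdd (skel T) (skel (addT w T)) :=
  ⟨w, hT.isGreatest, skel_addT hT⟩

theorem addT_evA {w : ℝ} {T : Finset Sqr} (hT : IsTiling w T) :
    toNC hT.addT ∈ EvA := by
  have hw := hT.wpos
  have hs : 0 < 1 / (1 + w) := by positivity
  have hs1 : 1 / (1 + w) + 1 / (1 + w) * w = 1 := by field_simp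
  refine ⟨1 / (1 + w) * w, ⟨by positivity, by linarith⟩, hT.addT.skel_subset, ?_⟩
  rw [coe_toNC, skel_addT hT, Set.disjoint_left]
  rintro p (⟨p', hp', rfl⟩ | hp) ⟨h1, h2⟩
  · have h3 : p'.2 ≤ 1 := (hT.skel_subset hp').2.2
    have h4 : 1 / (1 + w) * p'.2 ≤ 1 / (1 + w) * 1 := mul_le_mul_of_nonneg_left h3 hs.le
    have h5 := h2.1
    simp only [scl] at h5
    linarith
  · apply hp.2
    rw [mem_osq]
    simp only
    exact ⟨⟨h1.1, by linarith [h1.2]⟩, by linarith [h2.1], by linarith [h2.2]⟩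

theorem exists_topAdd {n : ℕ} {K : NonemptyCompacts (ℝ × ℝ)} (hK : K ∈ Sq n) :
    ∃ K' ∈ Sq (n + 1), IsTopAdd (K : Set (ℝ × ℝ)) (K' : Set (ℝ × ℝ)) ∧ K' ∈ EvA := by
  obtain ⟨w, T, hT, hn, hK⟩ := hK
  refine ⟨toNC hT.addT, ⟨_, _, hT.addT, by rw [card_addT hT, hn], rfl⟩, ?_, addT_evA hT⟩
  rw [hK, coe_toNC]
  exact isTopAdd_skel hT

theorem topAdd_injective {n m : ℕ} {K K₁ K' : NonemptyCompacts (ℝ × ℝ)} (hK : K ∈ Sq n)
    (hK₁ : K₁ ∈ Sq m) (h : IsTopAdd (K : Set (ℝ × ℝ)) K')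
    (h₁ : IsTopAdd (K₁ : Set (ℝ × ℝ)) K') : K = K₁ := by
  obtain ⟨w, T, hT, -, hK⟩ := hK
  obtain ⟨w₁, T₁, hT₁, -, hK₁⟩ := hK₁
  rw [hK] at h
  rw [hK₁] at h₁
  have e := isTopAdd_eq hT h
  have e₁ := isTopAdd_eq hT₁ h₁
  have hw := hT.wpos
  have hw₁ := hT₁.wpos
  have g := hT.addT.isGreatest
  have g₁ := hT₁.addT.isGreatest
  rw [← e] at g
  rw [← e₁] at g₁
  have h2 : 1 / (1 + w) * w = 1 / (1 + w₁) * w₁ := g.unique g₁
  have hww : w = w₁ := by
    field_simp at h2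
    linarith
  subst hww
  have hs : 0 < 1 / (1 + w) := by positivity
  have hrec : ∀ {T : Finset Sqr}, IsTiling w T →
      scl (1 / (1 + w)) '' skel T = skel (addT w T) ∩ {p | p.2 ≤ 1 / (1 + w)} := by
    intro T hT
    ext p
    constructor
    · intro hp
      refine ⟨by rw [skel_addT hT]; exact Or.inl hp, ?_⟩
      obtain ⟨p', hp', rfl⟩ := hp
      have h3 : p'.2 ≤ 1 := (hT.skel_subset hp').2.2
      have h4 : 1 / (1 + w) * p'.2 ≤ 1 / (1 + w) * 1 := mul_le_mul_of_nonneg_left h3 hs.le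
      simp only [scl, mem_ofPred_eq]
      linarith
    · rintro ⟨hp, hp2⟩
      rw [skel_addT hT] at hp
      rcases hp with hp | hp
      · exact hp
      · have h3 := hp.1
        rw [mem_csq] at h3
        simp only at h3
        simp only [mem_ofPred_eq] at hp2
        have h4 : p.2 = 1 / (1 + w) := le_antisymm hp2 h3.2.1
        obtain ⟨p', rfl⟩ := exists_scl hs p
        simp only [scl] at h3 h4
        have h5 : p'.2 = 1 := mul_left_cancel₀ hs.ne' (by rw [h4, mul_one])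
        have h6 : 0 ≤ p'.1 := nonneg_of_mul_nonneg_right h3.1.1 hs
        have h7 : p'.1 ≤ w := le_of_mul_le_mul_left (by linarith [h3.1.2]) hs
        refine ⟨p', ?_, rfl⟩
        have : p' = (p'.1, 1) := Prod.ext rfl h5
        rw [this]
        exact hT.top_mem ⟨h6, h7⟩
  apply SetLike.coe_injective
  rw [hK, hK₁]
  apply (scl_injective hs).image_injective
  rw [hrec hT, hrec hT₁, ← e, ← e₁]

end Pool.Agent.MP269
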